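import Mathlib

set_option autoImplicit false

/-!
# The sharp one-dimensional Gagliardo-Nirenberg inequality for densities
-/

open MeasureTheory Set Filter Topology Real

namespace Pool.Agent.N674.LT

/-- the calibration profile `√(1 - u ^ p)` -/
noncomputable def ps (p u : ℝ) : ℝ := √(max (1 - (max u 0) ^ p) 0)

/-- its integral -/
noncomputable def JJ (p : ℝ) : ℝ := ∫ u in (0:ℝ)..1, ps p u

theorem ps_cont {p : ℝ} (hp : 0 < p) : Continuous (ps p) := by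
  unfold ps
  refine Real.continuous_sqrt.comp ?_
  refine Continuous.max ?_ continuous_const
  refine continuous_const.sub ?_
  exact (continuous_id.max continuous_const).rpow_const fun x => Or.inr hp.le

theorem ps_nonneg (p u : ℝ) : 0 ≤ ps p u := Real.sqrt_nonneg _

theorem ps_sq {p u : ℝ} (hp : 0 < p) (h0 : 0 ≤ u) (h1 : u ≤ 1) : ps p u ^ 2 = 1 - u ^ p := by
  unfold ps
  rw [max_eq_left h0, Real.sq_sqrt (le_max_right _ _), max_eq_left]
  have := Real.rpow_le_one h0 h1 hp.le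
  linarith

theorem JJ_scale {p M : ℝ} (hM : 0 < M) : ∫ t in (0:ℝ)..M, ps p (t / M) = M * JJ p := by
  rw [intervalIntegral.integral_comp_div (fun u => ps p u) hM.ne', zero_div, div_self hM.ne',
    smul_eq_mul]
  rfl

theorem disc {X Y Z : ℝ} (h : ∀ α : ℝ, 0 < α → 0 ≤ α ^ 2 * Y - α * X + Z) (hX : 0 ≤ X)
    (hY : 0 ≤ Y) (hZ : 0 ≤ Z) : X ^ 2 ≤ 4 * (Z * Y) := by
  have h1 : ∀ α : ℝ, 0 ≤ Y * (α * α) + (-X) * α + Z := by
    intro α
    rcases lt_or_ge 0 α with h2 | h2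
    · have := h α h2
      nlinarith
    · nlinarith [mul_nonneg hX (neg_nonneg.2 h2), mul_nonneg hY (mul_self_nonneg α)]
  have h2 := discrim_le_zero h1
  unfold discrim at h2
  nlinarith

theorem oneD {p : ℝ} (hp : 0 < p) (r S Q : ℝ → ℝ) (h0 : ∀ x, 0 ≤ r x) (hQ0 : ∀ x, 0 ≤ Q x)
    (hd : ∀ x, HasDerivAt r (2 * S x) x) (hS : Continuous S) (hQ : Continuous Q)
    (hSQ : ∀ x, S x ^ 2 ≤ r x * Q x) (L : ℝ) (hL : ∀ x, L < |x| → r x = 0 ∧ S x = 0 ∧ Q x = 0) :
    ∃ M B : ℝ, 0 ≤ M ∧ 0 ≤ B ∧ B ≤ ∫ x, r x ∧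
      M ^ 2 * JJ p ^ 2 ≤ (∫ x, Q x) * ((∫ x, r x) - B) ∧ ∫ x, r x ^ (1 + p) = M ^ p * B := by
  have hrc : Continuous r := continuous_iff_continuousAt.2 fun x => (hd x).continuousAt
  have cs : ∀ f : ℝ → ℝ, (∀ x, L < |x| → f x = 0) → HasCompactSupport f := by
    intro f hf
    refine HasCompactSupport.intro (isCompact_Icc (a := -L) (b := L)) fun x hx => hf x ?_
    by_contra hcon
    push Not at hcon
    exact hx (abs_le.1 hcon)
  have hp1 : (1 + p) ≠ 0 := by positivity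
  have hri : Integrable r := hrc.integrable_of_hasCompactSupport (cs r fun x hx => (hL x hx).1)
  have hQi : Integrable Q := hQ.integrable_of_hasCompactSupport (cs Q fun x hx => (hL x hx).2.2)
  have hpc : Continuous fun x => r x ^ (1 + p) := hrc.rpow_const fun x => Or.inr (by positivity)
  have hpi : Integrable fun x => r x ^ (1 + p) :=
    hpc.integrable_of_hasCompactSupport (cs _ fun x hx => by
      rw [(hL x hx).1, Real.zero_rpow hp1])
  have hA0 : 0 ≤ ∫ x, r x := integral_nonneg h0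
  have hT0 : 0 ≤ ∫ x, Q x := integral_nonneg hQ0
  -- the maximum
  obtain ⟨x0, hx0⟩ : ∃ x0, ∀ x, r x ≤ r x0 := by
    obtain ⟨x0, -, h⟩ := (isCompact_Icc (a := -|L| - 1) (b := |L| + 1)).exists_isMaxOn
      ⟨0, by constructor <;> linarith [abs_nonneg L]⟩ hrc.continuousOn
    refine ⟨x0, fun x => ?_⟩
    by_cases hx : |x| ≤ |L| + 1
    · exact h ⟨by linarith [(abs_le.1 hx).1], (abs_le.1 hx).2⟩
    · push Not at hx
      rw [(hL x (by linarith [le_abs_self L])).1]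
      exact h0 x0
  rcases (h0 x0).eq_or_lt with hM | hM
  · have hz : ∀ x, r x = 0 := fun x => le_antisymm (by rw [hM]; exact hx0 x) (h0 x)
    refine ⟨0, 0, le_rfl, le_rfl, hA0, ?_, ?_⟩
    · have : (0:ℝ) ≤ (∫ x, Q x) * ((∫ x, r x) - 0) := mul_nonneg hT0 (by simpa using hA0)
      simpa using this
    · simp [hz, Real.zero_rpow hp1]
  set M := r x0 with hMdef
  set R := ∫ x, r x ^ (1 + p) with hR
  have hMp : 0 < M ^ p := Real.rpow_pos_of_pos hM p
  have hR0 : 0 ≤ R := integral_nonneg fun x => Real.rpow_nonneg (h0 x) _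
  set ψ : ℝ → ℝ := fun x => ps p (r x / M) with hψ
  have hψc : Continuous ψ := (ps_cont hp).comp (hrc.div_const M)
  have hψ2 : ∀ x, r x * ψ x ^ 2 = r x - (M ^ p)⁻¹ * r x ^ (1 + p) := by
    intro x
    rw [hψ]
    dsimp only
    rw [ps_sq hp (div_nonneg (h0 x) hM.le) ((div_le_one hM).2 (hx0 x)),
      Real.div_rpow (h0 x) hM.le]
    rcases (h0 x).eq_or_lt with h | h
    · rw [← h, Real.zero_rpow hp1]; ring
    · rw [Real.rpow_add h, Real.rpow_one]
      field_simp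
  have hψi : ∫ x, r x * ψ x ^ 2 = (∫ x, r x) - (M ^ p)⁻¹ * R := by
    simp_rw [hψ2]
    rw [integral_sub hri (hpi.const_mul _), integral_const_mul]
  have hψ0 : 0 ≤ ∫ x, r x * ψ x ^ 2 := integral_nonneg fun x => mul_nonneg (h0 x) (sq_nonneg _)
  have hrψi : Integrable fun x => r x * ψ x ^ 2 :=
    (hrc.mul (hψc.pow 2)).integrable_of_hasCompactSupport (cs _ fun x hx => by
      show r x * ψ x ^ 2 = 0
      rw [(hL x hx).1, zero_mul])
  set W : ℝ → ℝ := fun x => ψ x * (2 * S x) with hW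
  have hWc : Continuous W := hψc.mul (continuous_const.mul hS)
  have hWi : Integrable W := hWc.integrable_of_hasCompactSupport (cs _ fun x hx => by
    show ψ x * (2 * S x) = 0
    rw [(hL x hx).2.1]; ring)
  have hWa : Integrable fun x => |W x| := hWi.abs
  -- the calibration
  have hcal : ∀ α : ℝ, 0 < α → 0 ≤ α ^ 2 * (∫ x, r x * ψ x ^ 2) - α * (∫ x, |W x|) +
      ∫ x, Q x := by
    intro α hα
    have h1 : ∫ x, (α ^ 2 * (r x * ψ x ^ 2) - α * |W x| + Q x) =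
        α ^ 2 * (∫ x, r x * ψ x ^ 2) - α * (∫ x, |W x|) + ∫ x, Q x := by
      have i1 := hrψi.const_mul (α ^ 2)
      have i2 := hWa.const_mul α
      have i3 : Integrable fun x => α ^ 2 * (r x * ψ x ^ 2) - α * |W x| := i1.sub i2
      rw [integral_add i3 hQi, integral_sub i1 i2, integral_const_mul, integral_const_mul]
    rw [← h1]
    refine integral_nonneg fun x => ?_
    have h2 : |W x| = 2 * (|S x| * ψ x) := by
      show |ψ x * (2 * S x)| = _
      rw [abs_mul, abs_mul, abs_of_nonneg (ps_nonneg p _), abs_two]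
      ring
    show 0 ≤ α ^ 2 * (r x * ψ x ^ 2) - α * |W x| + Q x
    rw [h2]
    have h3 : 0 ≤ α ^ 2 * (r x * ψ x ^ 2) + Q x :=
      add_nonneg (mul_nonneg (sq_nonneg _) (mul_nonneg (h0 x) (sq_nonneg _))) (hQ0 x)
    have h4 : (α * (2 * (|S x| * ψ x))) ^ 2 ≤ (α ^ 2 * (r x * ψ x ^ 2) + Q x) ^ 2 := by
      have h5 : |S x| ^ 2 ≤ r x * Q x := by rw [sq_abs]; exact hSQ x
      have h6 : (α * (2 * (|S x| * ψ x))) ^ 2 = 4 * α ^ 2 * ψ x ^ 2 * |S x| ^ 2 := by ring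
      rw [h6]
      have h7 : 4 * α ^ 2 * ψ x ^ 2 * |S x| ^ 2 ≤ 4 * α ^ 2 * ψ x ^ 2 * (r x * Q x) :=
        mul_le_mul_of_nonneg_left h5 (by positivity)
      nlinarith [sq_nonneg (α ^ 2 * (r x * ψ x ^ 2) - Q x)]
    have h8 := abs_le_of_sq_le_sq' h4 h3
    linarith [h8.2]
  have hdisc := disc hcal (integral_nonneg fun x => abs_nonneg _) hψ0 hT0
  -- the lower bound for the total variation
  set Φ : ℝ → ℝ := fun s => ∫ t in (0:ℝ)..s, ps p (t / M) with hΦ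
  have hpc' : Continuous fun t => ps p (t / M) := (ps_cont hp).comp (continuous_id.div_const M)
  have hΦd : ∀ s, HasDerivAt Φ (ps p (s / M)) s := fun s =>
    (hpc'.integral_hasStrictDerivAt 0 s).hasDerivAt
  have hΦr : ∀ x, HasDerivAt (fun x => Φ (r x)) (W x) x := fun x => (hΦd (r x)).comp x (hd x)
  have hΦM : Φ M = M * JJ p := JJ_scale hM
  have hΦ0 : Φ 0 = 0 := intervalIntegral.integral_same
  set K : ℝ := |L| + |x0| + 1 with hK
  have hK1 : -K ≤ x0 := by rw [hK]; linarith [neg_abs_le x0, abs_nonneg L]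
  have hK2 : x0 ≤ K := by rw [hK]; linarith [le_abs_self x0, abs_nonneg L]
  have hK0 : 0 < K := by positivity
  have hrK : r K = 0 := (hL K (by rw [abs_of_pos hK0, hK]; linarith [le_abs_self L, abs_nonneg x0])).1
  have hrK' : r (-K) = 0 := (hL (-K) (by
    rw [abs_neg, abs_of_pos hK0, hK]; linarith [le_abs_self L, abs_nonneg x0])).1
  have hi : ∀ a b, IntervalIntegrable W volume a b := fun a b => hWc.intervalIntegrable a b
  have e1 : ∫ x in (-K)..x0, W x = M * JJ p := by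
    rw [intervalIntegral.integral_eq_sub_of_hasDerivAt (fun x _ => hΦr x) (hi _ _)]
    show Φ M - Φ (r (-K)) = _
    rw [hrK', hΦM, hΦ0, sub_zero]
  have e2 : ∫ x in x0..K, W x = -(M * JJ p) := by
    rw [intervalIntegral.integral_eq_sub_of_hasDerivAt (fun x _ => hΦr x) (hi _ _)]
    show Φ (r K) - Φ M = _
    rw [hrK, hΦM, hΦ0, zero_sub]
  have hJ0 : 0 ≤ M * JJ p := mul_nonneg hM.le
    (intervalIntegral.integral_nonneg zero_le_one fun u _ => ps_nonneg p u)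
  have e3 : M * JJ p ≤ ∫ x in (-K)..x0, |W x| := by
    have := intervalIntegral.abs_integral_le_integral_abs (f := W) (μ := volume) hK1
    rw [e1, abs_of_nonneg hJ0] at this
    exact this
  have e4 : M * JJ p ≤ ∫ x in x0..K, |W x| := by
    have := intervalIntegral.abs_integral_le_integral_abs (f := W) (μ := volume) hK2
    rw [e2, abs_neg, abs_of_nonneg hJ0] at this
    exact this
  have e5 : 2 * (M * JJ p) ≤ ∫ x, |W x| := by
    have h1 := intervalIntegral.integral_add_adjacent_intervals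
      (hWc.abs.intervalIntegrable (μ := volume) (-K) x0)
      (hWc.abs.intervalIntegrable (μ := volume) x0 K)
    have h2 : ∫ x in (-K)..K, |W x| ≤ ∫ x, |W x| := by
      rw [intervalIntegral.integral_of_le (by linarith)]
      exact setIntegral_le_integral hWa (Eventually.of_forall fun x => abs_nonneg _)
    linarith
  refine ⟨M, (M ^ p)⁻¹ * R, hM.le, by positivity, by linarith [hψi, hψ0], ?_, ?_⟩
  · rw [← hψi]
    have h1 : (2 * (M * JJ p)) ^ 2 ≤ (∫ x, |W x|) ^ 2 :=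
      pow_le_pow_left₀ (by positivity) e5 2
    nlinarith
  · rw [← mul_assoc, mul_inv_cancel₀ hMp.ne', one_mul]

/-- weighted arithmetic-geometric mean -/
theorem amgm {j : ℕ} (hj : 1 ≤ j) {A B : ℝ} (hB : 0 ≤ B) (hBA : B ≤ A) :
    B ^ j * (A - B) ≤ (j:ℝ) ^ j / ((j:ℝ) + 1) ^ (j + 1) * A ^ (j + 1) := by
  have hj0 : (0:ℝ) < j := by exact_mod_cast hj
  have hj1 : (0:ℝ) < (j:ℝ) + 1 := by positivity
  have h := Real.geom_mean_le_arith_mean2_weighted (w₁ := (j:ℝ) / (j + 1)) (w₂ := 1 / ((j:ℝ) + 1))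
    (p₁ := B / j) (p₂ := A - B) (by positivity) (by positivity) (by positivity) (by linarith)
    (by field_simp)
  have e1 : (j:ℝ) / (j + 1) * (B / j) + 1 / ((j:ℝ) + 1) * (A - B) = A / (j + 1) := by
    field_simp; ring
  rw [e1] at h
  have h2 := pow_le_pow_left₀ (by
    have := Real.rpow_nonneg (show 0 ≤ B / j by positivity) ((j:ℝ) / (j + 1))
    have := Real.rpow_nonneg (show 0 ≤ A - B by linarith) (1 / ((j:ℝ) + 1))
    positivity) h (j + 1)
  have e2 : ((B / j) ^ ((j:ℝ) / (j + 1)) * (A - B) ^ (1 / ((j:ℝ) + 1))) ^ (j + 1) =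
      (B / j) ^ j * (A - B) := by
    rw [mul_pow, ← Real.rpow_natCast, ← Real.rpow_mul (by positivity), ← Real.rpow_natCast,
      ← Real.rpow_mul (by linarith)]
    push_cast
    rw [div_mul_cancel₀ _ hj1.ne', one_div, inv_mul_cancel₀ hj1.ne', Real.rpow_one,
      Real.rpow_natCast]
  rw [e2, div_pow, div_pow] at h2
  have hjj : (0:ℝ) < (j:ℝ) ^ j := by positivity
  rw [div_mul_eq_mul_div, div_le_div_iff₀ hjj (by positivity)] at h2
  rw [div_mul_eq_mul_div, le_div_iff₀ (by positivity)]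
  linarith

/-- the sharp constant: `(∫ r ^ (1 + 2 / j)) ^ j ≤ c_j ∫ Q (∫ r) ^ (j + 1)` -/
noncomputable def cj (j : ℕ) : ℝ := (j:ℝ) ^ j / ((j:ℝ) + 1) ^ (j + 1) / JJ (2 / (j:ℝ)) ^ 2

theorem oneD_pow {j : ℕ} (hj : 1 ≤ j) (hJ : 0 < JJ (2 / (j:ℝ))) (r S Q : ℝ → ℝ)
    (h0 : ∀ x, 0 ≤ r x) (hQ0 : ∀ x, 0 ≤ Q x)
    (hd : ∀ x, HasDerivAt r (2 * S x) x) (hS : Continuous S) (hQ : Continuous Q)
    (hSQ : ∀ x, S x ^ 2 ≤ r x * Q x) (L : ℝ) (hL : ∀ x, L < |x| → r x = 0 ∧ S x = 0 ∧ Q x = 0) :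
    (∫ x, r x ^ (1 + 2 / (j:ℝ))) ^ j ≤ cj j * (∫ x, Q x) * (∫ x, r x) ^ (j + 1) := by
  have hj0 : (0:ℝ) < j := by exact_mod_cast hj
  obtain ⟨M, B, hM, hB, hBA, h1, h2⟩ := oneD (p := 2 / (j:ℝ)) (by positivity) r S Q h0 hQ0 hd hS hQ
    hSQ L hL
  rw [h2, mul_pow, ← Real.rpow_natCast (M ^ (2 / (j:ℝ))), ← Real.rpow_mul hM,
    div_mul_cancel₀ _ hj0.ne', Real.rpow_ofNat]
  have hT0 : 0 ≤ ∫ x, Q x := integral_nonneg hQ0
  have h3 : M ^ 2 ≤ (∫ x, Q x) * ((∫ x, r x) - B) / JJ (2 / (j:ℝ)) ^ 2 := by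
    rw [le_div_iff₀ (by positivity)]; exact h1
  have h4 := amgm hj hB hBA
  calc M ^ 2 * B ^ j ≤ (∫ x, Q x) * ((∫ x, r x) - B) / JJ (2 / (j:ℝ)) ^ 2 * B ^ j :=
        mul_le_mul_of_nonneg_right h3 (pow_nonneg hB _)
    _ = (∫ x, Q x) / JJ (2 / (j:ℝ)) ^ 2 * (B ^ j * ((∫ x, r x) - B)) := by ring
    _ ≤ (∫ x, Q x) / JJ (2 / (j:ℝ)) ^ 2 *
        ((j:ℝ) ^ j / ((j:ℝ) + 1) ^ (j + 1) * (∫ x, r x) ^ (j + 1)) :=
        mul_le_mul_of_nonneg_left h4 (by positivity)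
    _ = _ := by rw [cj]; ring

end Pool.Agent.N674.LT
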