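import Mathlib
import Pool.Agent.N674.LT.OneD
import Pool.Agent.Helper717.LT.P_beta_int

set_option autoImplicit false

/-!
# The constants
-/

open MeasureTheory Set Filter Topology Real

namespace Pool.Agent.N674.LT

theorem JJ_eq {j : ℕ} (hj : 1 ≤ j) : JJ (2 / (j:ℝ)) =
    Gamma ((j:ℝ) / 2 + 1) * Gamma (3 / 2) / Gamma ((j:ℝ) / 2 + 3 / 2) := by
  have hj0 : (0:ℝ) < j := by exact_mod_cast hj
  have hp : 0 < 2 / (j:ℝ) := by positivity
  -- the integral over the half line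
  have h1 : JJ (2 / (j:ℝ)) = ∫ u in Ioi (0:ℝ), ps (2 / (j:ℝ)) u := by
    have hz : ∀ u ∈ Ioi (1:ℝ), ps (2 / (j:ℝ)) u = 0 := by
      intro u hu
      have hu' : (1:ℝ) < u := hu
      unfold ps
      rw [max_eq_left (by linarith : (0:ℝ) ≤ u), max_eq_right, Real.sqrt_zero]
      have := Real.one_le_rpow hu'.le hp.le
      linarith
    have hun : Ioi (0:ℝ) = Ioc 0 1 ∪ Ioi 1 := (Ioc_union_Ioi_eq_Ioi zero_le_one).symm
    have hi1 : IntegrableOn (ps (2 / (j:ℝ))) (Ioc 0 1) :=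
      ((ps_cont hp).integrableOn_Icc).mono_set Ioc_subset_Icc_self
    have hi2 : IntegrableOn (ps (2 / (j:ℝ))) (Ioi 1) :=
      (integrableOn_zero).congr_fun (fun u hu => (hz u hu).symm) measurableSet_Ioi
    rw [hun, setIntegral_union (by
      rw [Set.disjoint_left]
      intro τ h1 h2
      exact absurd h1.2 (not_le.2 h2)) measurableSet_Ioi hi1 hi2,
      setIntegral_congr_fun (g := fun _ => (0 : ℝ)) measurableSet_Ioi hz]
    simp only [integral_zero, add_zero]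
    rw [JJ, intervalIntegral.integral_of_le zero_le_one]
  have h2 := MeasureTheory.integral_comp_rpow_Ioi (fun u => ps (2 / (j:ℝ)) u)
    (p := (j:ℝ) / 2) (by positivity)
  have h3 : ∀ τ ∈ Ioi (0:ℝ), (|(j:ℝ) / 2| * τ ^ ((j:ℝ) / 2 - 1)) • ps (2 / (j:ℝ)) (τ ^ ((j:ℝ) / 2)) =
      (j:ℝ) / 2 * (τ ^ ((j:ℝ) / 2 - 1) * max (1 - τ) 0 ^ ((3:ℝ) / 2 - 1)) := by
    intro τ hτ
    have hτ' : (0:ℝ) < τ := hτ
    have e1 : ps (2 / (j:ℝ)) (τ ^ ((j:ℝ) / 2)) = max (1 - τ) 0 ^ ((3:ℝ) / 2 - 1) := by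
      unfold ps
      rw [max_eq_left (Real.rpow_nonneg hτ'.le _), ← Real.rpow_mul hτ'.le,
        show (j:ℝ) / 2 * (2 / (j:ℝ)) = 1 by field_simp, Real.rpow_one, Real.sqrt_eq_rpow]
      norm_num
    rw [e1, abs_of_pos (by positivity), smul_eq_mul, mul_assoc]
  rw [setIntegral_congr_fun measurableSet_Ioi h3, integral_const_mul,
    (LTd.beta_int (x := (j:ℝ) / 2) (y := 3 / 2) (E := 1) (by positivity) (by norm_num)
      zero_le_one).2] at h2
  rw [h1, ← h2, Real.one_rpow, mul_one, Real.Gamma_add_one (by positivity)]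
  ring

theorem JJ_pos {j : ℕ} (hj : 1 ≤ j) : 0 < JJ (2 / (j:ℝ)) := by
  have hj0 : (0:ℝ) < j := by exact_mod_cast hj
  rw [JJ_eq hj]
  have h1 := Real.Gamma_pos_of_pos (show 0 < (j:ℝ) / 2 + 1 by positivity)
  have h2 := Real.Gamma_pos_of_pos (show (0:ℝ) < 3 / 2 by norm_num)
  have h3 := Real.Gamma_pos_of_pos (show 0 < (j:ℝ) / 2 + 3 / 2 by positivity)
  positivity

theorem Gamma_three_half : Gamma (3 / 2) = √π / 2 := by
  rw [show (3:ℝ) / 2 = 1 / 2 + 1 by norm_num, Real.Gamma_add_one (by norm_num),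
    Real.Gamma_one_half_eq]
  ring

/-- the product of the constants -/
theorem prod_cj (d : ℕ) : ∏ i ∈ Finset.range d, cj (1 + i) =
    (4 / π) ^ (d + 1) * Gamma ((d:ℝ) / 2 + 3 / 2) ^ 2 / ((d:ℝ) + 1) ^ (d + 1) := by
  have hπ : 0 < π := Real.pi_pos
  have hs : √π ^ 2 = π := Real.sq_sqrt hπ.le
  induction d with
  | zero =>
    rw [Finset.range_zero, Finset.prod_empty]
    have : ((0:ℕ):ℝ) / 2 + 3 / 2 = 3 / 2 := by norm_num
    have h2 : (√π / 2) ^ 2 = π / 4 := by rw [div_pow, hs]; norm_num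
    rw [this, Gamma_three_half, h2]
    simp only [zero_add, pow_one, Nat.cast_zero]
    field_simp
  | succ d ih =>
    have hd1 : (0:ℝ) < (d:ℝ) + 1 := by positivity
    have hG1 := Real.Gamma_pos_of_pos (show 0 < (d:ℝ) / 2 + 3 / 2 by positivity)
    have hG2 := Real.Gamma_pos_of_pos (show 0 < ((d + 1 : ℕ):ℝ) / 2 + 3 / 2 by positivity)
    rw [Finset.prod_range_succ, ih, cj, JJ_eq (by omega : 1 ≤ 1 + d), Gamma_three_half]
    have e1 : ((1 + d : ℕ) : ℝ) / 2 + 1 = (d:ℝ) / 2 + 3 / 2 := by push_cast; ring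
    have e2 : ((1 + d : ℕ) : ℝ) / 2 + 3 / 2 = ((d + 1 : ℕ):ℝ) / 2 + 3 / 2 := by push_cast; ring
    have e3 : ((1 + d : ℕ) : ℝ) = (d:ℝ) + 1 := by push_cast; ring
    have e4 : ((d + 1 : ℕ) : ℝ) = (d:ℝ) + 1 := by push_cast; ring
    rw [e1, e2, e3, e4]
    have e5 : (1 + d) = d + 1 := by omega
    rw [e5]
    rw [e4] at hG2
    set G1 := Gamma ((d:ℝ) / 2 + 3 / 2)
    set G2 := Gamma (((d:ℝ) + 1) / 2 + 3 / 2)
    have e6 : (G1 * (√π / 2) / G2) ^ 2 = G1 ^ 2 * (π / 4) / G2 ^ 2 := by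
      rw [div_pow, mul_pow, div_pow, hs]; norm_num
    rw [e6]
    have hd2 : (0:ℝ) < (d:ℝ) + 1 + 1 := by positivity
    rw [pow_succ (4 / π) (d + 1)]
    field_simp

end Pool.Agent.N674.LT
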