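import Mathlib

set_option autoImplicit false

/-!
# Hölder's inequality for several factors, in the form of powers
-/

open MeasureTheory Set Filter Topology Real
open scoped ENNReal

namespace Pool.Agent.N674.LT

theorem holder_pow {m j d : ℕ} (hd : m + j = d) (hj : 1 ≤ j) (C : ℝ) (hC : 0 ≤ C)
    (F g : ℝ → ℝ) (f : Fin m → ℝ → ℝ) (hF0 : ∀ x, 0 ≤ F x) (hg0 : ∀ x, 0 ≤ g x)
    (hf0 : ∀ k x, 0 ≤ f k x) (hF : Integrable F) (hg : Integrable g) (hf : ∀ k, Integrable (f k))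
    (h : ∀ x, F x ^ d ≤ C * g x ^ j * ∏ k, f k x) :
    (∫ x, F x) ^ d ≤ C * (∫ x, g x) ^ j * ∏ k, ∫ x, f k x := by
  have hd0 : d ≠ 0 := by omega
  have hdr : (0:ℝ) < d := by exact_mod_cast Nat.pos_of_ne_zero hd0
  have hF' : 0 ≤ ∫ x, F x := integral_nonneg hF0
  have hg' : 0 ≤ ∫ x, g x := integral_nonneg hg0
  have hf' : ∀ k, 0 ≤ ∫ x, f k x := fun k => integral_nonneg (hf0 k)
  have key : ENNReal.ofReal (∫ x, F x) ≤ ENNReal.ofReal C ^ (1 / (d:ℝ)) *
      (ENNReal.ofReal (∫ x, g x) ^ ((j:ℝ) / d) *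
        ∏ k, ENNReal.ofReal (∫ x, f k x) ^ (1 / (d:ℝ))) := by
    rw [ofReal_integral_eq_lintegral_ofReal hF (ae_of_all _ hF0),
      ofReal_integral_eq_lintegral_ofReal hg (ae_of_all _ hg0)]
    have e1 : ∀ k, ENNReal.ofReal (∫ x, f k x) = ∫⁻ x, ENNReal.ofReal (f k x) := fun k =>
      ofReal_integral_eq_lintegral_ofReal (hf k) (ae_of_all _ (hf0 k))
    simp_rw [e1]
    have h1 := ENNReal.lintegral_mul_prod_norm_pow_le (μ := volume) (Finset.univ : Finset (Fin m))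
      (g := fun x => ENNReal.ofReal (g x)) (f := fun k x => ENNReal.ofReal (f k x))
      hg.1.aemeasurable.ennreal_ofReal (fun k _ => (hf k).1.aemeasurable.ennreal_ofReal)
      ((j:ℝ) / d) (p := fun _ => 1 / (d:ℝ)) (by
        rw [Finset.sum_const, Finset.card_univ, Fintype.card_fin, nsmul_eq_mul]
        field_simp
        rw [← hd]; push_cast; ring) (by positivity) (fun _ _ => by positivity)
    refine le_trans ?_ (mul_le_mul_right h1 _)
    rw [← lintegral_const_mul' _ _ (ENNReal.rpow_ne_top_of_nonneg (by positivity)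
      ENNReal.ofReal_ne_top)]
    refine lintegral_mono fun x => ?_
    have h2 : ENNReal.ofReal (F x) = (ENNReal.ofReal (F x ^ d)) ^ (1 / (d:ℝ)) := by
      rw [ENNReal.ofReal_pow (hF0 x), ← ENNReal.rpow_natCast, ← ENNReal.rpow_mul,
        mul_one_div_cancel hdr.ne', ENNReal.rpow_one]
    have h3 : (ENNReal.ofReal (C * g x ^ j * ∏ k, f k x)) ^ (1 / (d:ℝ)) =
        ENNReal.ofReal C ^ (1 / (d:ℝ)) * (ENNReal.ofReal (g x) ^ ((j:ℝ) / d) *
          ∏ k, ENNReal.ofReal (f k x) ^ (1 / (d:ℝ))) := by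
      rw [ENNReal.ofReal_mul (mul_nonneg hC (pow_nonneg (hg0 x) _)), ENNReal.ofReal_mul hC,
        ENNReal.ofReal_prod_of_nonneg (fun k _ => hf0 k x), ENNReal.ofReal_pow (hg0 x),
        ENNReal.mul_rpow_of_nonneg _ _ (by positivity), ENNReal.mul_rpow_of_nonneg _ _
        (by positivity), ← ENNReal.prod_rpow_of_nonneg (by positivity), mul_assoc]
      congr 2
      rw [← ENNReal.rpow_natCast, ← ENNReal.rpow_mul]
      congr 1
      ring
    rw [h2, ← h3]
    exact ENNReal.rpow_le_rpow (ENNReal.ofReal_le_ofReal (h x)) (by positivity)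
  have h4 := pow_le_pow_left' key d
  rw [mul_pow, mul_pow, ← Finset.prod_pow, ← ENNReal.rpow_natCast (ENNReal.ofReal C ^ _),
    ← ENNReal.rpow_mul, one_div_mul_cancel hdr.ne', ENNReal.rpow_one,
    ← ENNReal.rpow_natCast (ENNReal.ofReal (∫ x, g x) ^ _), ← ENNReal.rpow_mul,
    div_mul_cancel₀ _ hdr.ne', ENNReal.rpow_natCast, ← ENNReal.ofReal_pow hF',
    ← ENNReal.ofReal_pow hg'] at h4
  have h5 : ∏ k, (ENNReal.ofReal (∫ x, f k x) ^ (1 / (d:ℝ))) ^ d =
      ENNReal.ofReal (∏ k, ∫ x, f k x) := by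
    rw [ENNReal.ofReal_prod_of_nonneg (fun k _ => hf' k)]
    refine Finset.prod_congr rfl fun k _ => ?_
    rw [← ENNReal.rpow_natCast, ← ENNReal.rpow_mul, one_div_mul_cancel hdr.ne', ENNReal.rpow_one]
  rw [h5, ← ENNReal.ofReal_mul (pow_nonneg hg' _), ← ENNReal.ofReal_mul hC] at h4
  have h6 := (ENNReal.ofReal_le_ofReal_iff (by
    have := Finset.prod_nonneg (fun k (_ : k ∈ (Finset.univ : Finset (Fin m))) => hf' k)
    positivity)).1 h4
  rw [mul_assoc]
  exact h6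

end Pool.Agent.N674.LT
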