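import Mathlib
import Pool.Agent.N674.LT.OneD
import Pool.Agent.N674.LT.Holder
import Pool.Agent.Helper717.LT.P_slice_cont
import Pool.Agent.Helper717.LT.P_slice_int
import Pool.Agent.Helper717.LT.P_slice_pd
import Pool.Agent.Helper717.LT.P_slice_der
import Pool.Agent.Helper717.LT.P_pd_basic

set_option autoImplicit false

/-!
# The Gagliardo-Nirenberg inequality for vector valued functions by slicing
-/

open MeasureTheory Set Filter Topology Real
open LTd (pd slice_der slice_int slice_cont slice_pd pd_basic)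

namespace Pool.Agent.N674.LT

theorem cs_int {X ι : Type*} [MeasurableSpace X] {μ : Measure X} [Fintype ι] (a b : ι → X → ℝ)
    (ha : ∀ i, Integrable (fun x => a i x ^ 2) μ) (hb : ∀ i, Integrable (fun x => b i x ^ 2) μ)
    (hab : ∀ i, Integrable (fun x => a i x * b i x) μ) :
    (∫ x, ∑ i, a i x * b i x ∂μ) ^ 2 ≤ (∫ x, ∑ i, b i x ^ 2 ∂μ) * ∫ x, ∑ i, a i x ^ 2 ∂μ := by
  have hA : Integrable (fun x => ∑ i, a i x ^ 2) μ := integrable_finsetSum _ fun i _ => ha i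
  have hB : Integrable (fun x => ∑ i, b i x ^ 2) μ := integrable_finsetSum _ fun i _ => hb i
  have hAB : Integrable (fun x => ∑ i, a i x * b i x) μ := integrable_finsetSum _ fun i _ => hab i
  have h1 : ∀ α : ℝ, 0 ≤ (∫ x, ∑ i, a i x ^ 2 ∂μ) * (α * α) +
      (-2 * ∫ x, ∑ i, a i x * b i x ∂μ) * α + ∫ x, ∑ i, b i x ^ 2 ∂μ := by
    intro α
    have e1 : ∫ x, ∑ i, (α * a i x - b i x) ^ 2 ∂μ = (∫ x, ∑ i, a i x ^ 2 ∂μ) * (α * α) +
        (-2 * ∫ x, ∑ i, a i x * b i x ∂μ) * α + ∫ x, ∑ i, b i x ^ 2 ∂μ := by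
      have e2 : ∀ x, ∑ i, (α * a i x - b i x) ^ 2 = (α * α) * (∑ i, a i x ^ 2) +
          (-2 * α) * (∑ i, a i x * b i x) + ∑ i, b i x ^ 2 := by
        intro x
        rw [Finset.mul_sum, Finset.mul_sum, ← Finset.sum_add_distrib, ← Finset.sum_add_distrib]
        refine Finset.sum_congr rfl fun i _ => ?_
        ring
      simp_rw [e2]
      have i1 := hA.const_mul (α * α)
      have i2 := hAB.const_mul (-2 * α)
      have i3 : Integrable (fun x => (α * α) * (∑ i, a i x ^ 2) +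
          (-2 * α) * (∑ i, a i x * b i x)) μ := i1.add i2
      rw [integral_add i3 hB, integral_add i1 i2, integral_const_mul, integral_const_mul]
      ring
    rw [← e1]
    exact integral_nonneg fun x => Finset.sum_nonneg fun i _ => sq_nonneg _
  have h2 := discrim_le_zero h1
  unfold discrim at h2
  nlinarith

/-- the inequality in `m` variables, with `j` variables missing -/
def P (m : ℕ) : Prop := ∀ j : ℕ, 1 ≤ m + j → ∀ (n : ℕ) (w : Fin n → (Fin m → ℝ) → ℝ),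
  (∀ i, ContDiff ℝ 1 (w i)) → (∀ i, HasCompactSupport (w i)) →
  (∫ x, (∑ i, w i x ^ 2) ^ (1 + 2 / ((m + j : ℕ) : ℝ))) ^ (m + j) ≤
    (∏ i ∈ Finset.range m, cj (j + 1 + i)) * (∫ x, ∑ i, w i x ^ 2) ^ (j + 2) *
      ∏ k : Fin m, ∫ x, ∑ i, pd k (w i) x ^ 2

theorem P_zero : P 0 := by
  intro j hj n w hw hc
  have key : ∀ f : (Fin 0 → ℝ) → ℝ, ∫ x, f x = f default := by
    intro f
    rw [MeasureTheory.Measure.volume_pi_eq_dirac (default : Fin 0 → ℝ), integral_dirac]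
  rw [key, key]
  have hρ : 0 ≤ ∑ i, w i default ^ 2 := Finset.sum_nonneg fun i _ => sq_nonneg _
  have hj0 : (0:ℝ) < ((0 + j : ℕ) : ℝ) := by exact_mod_cast hj
  simp only [Finset.range_zero, Finset.prod_empty, one_mul, Finset.univ_eq_empty, mul_one]
  rw [← Real.rpow_natCast, ← Real.rpow_mul hρ, add_mul, one_mul, div_mul_cancel₀ _ hj0.ne',
    zero_add]
  apply le_of_eq
  rw [← Real.rpow_natCast]
  congr 1
  push_cast
  ring

theorem slice_integrable {m : ℕ} {f : (Fin (m + 1) → ℝ) → ℝ} (hf : Continuous f)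
    (hc : HasCompactSupport f) :
    Integrable (fun x : ℝ => ∫ y : Fin m → ℝ, f (Fin.cons x y : Fin (m + 1) → ℝ)) := by
  obtain ⟨h1, h2, h3, M, hM⟩ := slice_cont hf hc
  refine h1.integrable_of_hasCompactSupport ?_
  refine HasCompactSupport.intro (isCompact_Icc (a := -M) (b := M)) (fun x hx => ?_)
  have hx' : M < |x| := by
    by_contra hcon
    exact hx (abs_le.1 (not_lt.1 hcon))
  simp only [hM x hx']
  simp

theorem cj_nonneg (j : ℕ) : 0 ≤ cj j := by unfold cj; positivity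

theorem sum_cs {m n : ℕ} (f : Fin n → (Fin m → ℝ) → ℝ) (hf : ∀ i, Continuous (f i))
    (hc : ∀ i, HasCompactSupport (f i)) :
    Continuous (fun z => ∑ i, f i z) ∧ HasCompactSupport (fun z => ∑ i, f i z) := by
  refine ⟨continuous_finsetSum _ fun i _ => hf i, ?_⟩
  refine HasCompactSupport.intro (isCompact_iUnion fun i => hc i) fun z hz => ?_
  exact Finset.sum_eq_zero fun i _ => image_eq_zero_of_notMem_tsupport fun h =>
    hz (Set.mem_iUnion.2 ⟨i, h⟩)

theorem P_succ {m : ℕ} (hJ : ∀ j : ℕ, 1 ≤ j → 0 < JJ (2 / (j:ℝ))) (hP : P m) : P (m + 1) := by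
  intro j hj n w hw hc
  have hwc : ∀ i, Continuous (w i) := fun i => (hw i).continuous
  have hsq : ∀ {f : (Fin (m + 1) → ℝ) → ℝ}, HasCompactSupport f →
      HasCompactSupport fun z => f z ^ 2 := fun h =>
    h.comp_left (g := fun t : ℝ => t ^ 2) (by norm_num)
  have hpd : ∀ k i, Continuous (pd k (w i)) ∧ HasCompactSupport (pd k (w i)) := fun k i =>
    pd_basic (hw i) (hc i) k
  -- the density
  have hρ := sum_cs (fun i z => w i z ^ 2) (fun i => (hwc i).pow 2) (fun i => hsq (hc i))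
  have hρ0 : ∀ z, 0 ≤ ∑ i, w i z ^ 2 := fun z => Finset.sum_nonneg fun i _ => sq_nonneg _
  set d : ℕ := m + (j + 1) with hd
  have hd' : m + 1 + j = d := by omega
  rw [hd']
  have hd0 : (0:ℝ) < (d:ℝ) := by
    have : 0 < d := by omega
    exact_mod_cast this
  have hq0 : 0 < 1 + 2 / (d:ℝ) := by positivity
  have hF := fun z => (Real.rpow_nonneg (hρ0 z) (1 + 2 / (d:ℝ)))
  have hFc : Continuous fun z => (∑ i, w i z ^ 2) ^ (1 + 2 / (d:ℝ)) :=
    hρ.1.rpow_const fun z => Or.inr hq0.le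
  have hFs : HasCompactSupport fun z => (∑ i, w i z ^ 2) ^ (1 + 2 / (d:ℝ)) :=
    hρ.2.comp_left (g := fun t : ℝ => t ^ (1 + 2 / (d:ℝ))) (Real.zero_rpow hq0.ne')
  -- the kinetic energies
  have hT : ∀ k, Continuous (fun z => ∑ i, pd k (w i) z ^ 2) ∧
      HasCompactSupport (fun z => ∑ i, pd k (w i) z ^ 2) := fun k =>
    sum_cs (fun i z => pd k (w i) z ^ 2) (fun i => (hpd k i).1.pow 2) (fun i => hsq (hpd k i).2)
  have hT0 : ∀ k z, 0 ≤ ∑ i, pd k (w i) z ^ 2 := fun k z =>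
    Finset.sum_nonneg fun i _ => sq_nonneg _
  -- the functions of one variable
  set r : ℝ → ℝ := fun x => ∫ y : Fin m → ℝ, ∑ i, w i (Fin.cons x y : Fin (m + 1) → ℝ) ^ 2 with hr
  set Q : ℝ → ℝ := fun x => ∫ y : Fin m → ℝ, ∑ i, pd 0 (w i) (Fin.cons x y : Fin (m + 1) → ℝ) ^ 2
    with hQ
  have hSc : ∀ i, Continuous (fun z => pd 0 (w i) z * w i z) ∧
      HasCompactSupport (fun z => pd 0 (w i) z * w i z) := fun i =>
    ⟨(hpd 0 i).1.mul (hwc i), (hpd 0 i).2.mul_right⟩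
  have hS' := sum_cs (fun i z => pd 0 (w i) z * w i z) (fun i => (hSc i).1) (fun i => (hSc i).2)
  set S : ℝ → ℝ := fun x => ∫ y : Fin m → ℝ,
    ∑ i, pd 0 (w i) (Fin.cons x y : Fin (m + 1) → ℝ) * w i (Fin.cons x y : Fin (m + 1) → ℝ) with hS
  have hr0 : ∀ x, 0 ≤ r x := fun x => integral_nonneg fun y => hρ0 _
  have hQ0 : ∀ x, 0 ≤ Q x := fun x => integral_nonneg fun y => hT0 0 _
  have hrd : ∀ x, HasDerivAt r (2 * S x) x := by
    intro x
    have h1 := slice_der (f := fun z => ∑ i, w i z ^ 2) (ContDiff.sum fun i _ => (hw i).pow 2)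
      hρ.2 x
    refine h1.congr_deriv ?_
    rw [hS]
    dsimp only
    rw [← integral_const_mul]
    refine integral_congr_ae (Eventually.of_forall fun y => ?_)
    show pd 0 (fun z => ∑ i, w i z ^ 2) (Fin.cons x y : Fin (m + 1) → ℝ) = _
    unfold pd
    have hdf : ∀ i, HasFDerivAt (fun z => w i z ^ 2)
        ((2 * w i (Fin.cons x y : Fin (m + 1) → ℝ)) •
          fderiv ℝ (w i) (Fin.cons x y : Fin (m + 1) → ℝ)) (Fin.cons x y : Fin (m + 1) → ℝ) := by
      intro i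
      have := (((hw i).differentiable (by norm_num))
        (Fin.cons x y : Fin (m + 1) → ℝ)).hasFDerivAt.pow 2
      simpa using this
    have h2 := HasFDerivAt.fun_sum (u := Finset.univ) fun i _ => hdf i
    rw [h2.fderiv]
    dsimp only
    rw [Finset.mul_sum]
    simp only [ContinuousLinearMap.sum_apply, ContinuousLinearMap.smul_apply, smul_eq_mul]
    refine Finset.sum_congr rfl fun i _ => ?_
    ring
  have hrs := slice_cont hρ.1 hρ.2
  have hQs := slice_cont (hT 0).1 (hT 0).2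
  have hSs := slice_cont hS'.1 hS'.2
  have hSQ : ∀ x, S x ^ 2 ≤ r x * Q x := by
    intro x
    have hint : ∀ f : (Fin (m + 1) → ℝ) → ℝ, Continuous f → HasCompactSupport f →
        Integrable (fun y : Fin m → ℝ => f (Fin.cons x y : Fin (m + 1) → ℝ)) := by
      intro f h1 h2
      obtain ⟨_, h3, h4, _⟩ := slice_cont h1 h2
      exact (h3 x).integrable_of_hasCompactSupport (h4 x)
    exact cs_int (fun i (y : Fin m → ℝ) => pd 0 (w i) (Fin.cons x y : Fin (m + 1) → ℝ))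
      (fun i (y : Fin m → ℝ) => w i (Fin.cons x y : Fin (m + 1) → ℝ))
      (fun i => hint (fun z => pd 0 (w i) z ^ 2) ((hpd 0 i).1.pow 2) (hsq (hpd 0 i).2))
      (fun i => hint (fun z => w i z ^ 2) ((hwc i).pow 2) (hsq (hc i)))
      (fun i => hint (fun z => pd 0 (w i) z * w i z) (hSc i).1 (hSc i).2)
  obtain ⟨M1, hM1⟩ := hrs.2.2.2
  obtain ⟨M2, hM2⟩ := hQs.2.2.2
  obtain ⟨M3, hM3⟩ := hSs.2.2.2
  have hL : ∀ x, max M1 (max M2 M3) < |x| → r x = 0 ∧ S x = 0 ∧ Q x = 0 := by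
    intro x hx
    have h1 : M1 < |x| := lt_of_le_of_lt (le_max_left _ _) hx
    have h2 : M2 < |x| := lt_of_le_of_lt ((le_max_left _ _).trans (le_max_right _ _)) hx
    have h3 : M3 < |x| := lt_of_le_of_lt ((le_max_right _ _).trans (le_max_right _ _)) hx
    refine ⟨?_, ?_, ?_⟩
    · show ∫ y : Fin m → ℝ, ∑ i, w i (Fin.cons x y : Fin (m + 1) → ℝ) ^ 2 = 0
      simp only [hM1 x h1, integral_zero]
    · show ∫ y : Fin m → ℝ, ∑ i, pd 0 (w i) (Fin.cons x y : Fin (m + 1) → ℝ) *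
        w i (Fin.cons x y : Fin (m + 1) → ℝ) = 0
      simp only [hM3 x h3, integral_zero]
    · show ∫ y : Fin m → ℝ, ∑ i, pd 0 (w i) (Fin.cons x y : Fin (m + 1) → ℝ) ^ 2 = 0
      simp only [hM2 x h2, integral_zero]
  have hone := oneD_pow (j := j + 1) (by omega) (hJ (j + 1) (by omega)) r S Q hr0 hQ0 hrd hSs.1
    hQs.1 hSQ _ hL
  -- the slices
  have hrc : Continuous r := hrs.1
  have hg1 : 0 < 1 + 2 / ((j + 1 : ℕ) : ℝ) := by positivity
  have hgi : Integrable fun x => r x ^ (1 + 2 / ((j + 1 : ℕ) : ℝ)) := by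
    refine (hrc.rpow_const fun x => Or.inr hg1.le).integrable_of_hasCompactSupport ?_
    refine HasCompactSupport.intro (isCompact_Icc (a := -(max M1 (max M2 M3)))
      (b := max M1 (max M2 M3))) fun x hx => ?_
    have h1 : max M1 (max M2 M3) < |x| := by
      by_contra hcon
      push Not at hcon
      exact hx (abs_le.1 hcon)
    rw [(hL x h1).1, Real.zero_rpow hg1.ne']
  have hslice : ∀ x, (∫ y : Fin m → ℝ,
      (∑ i, w i (Fin.cons x y : Fin (m + 1) → ℝ) ^ 2) ^ (1 + 2 / (d:ℝ))) ^ d ≤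
      (∏ i ∈ Finset.range m, cj (j + 1 + 1 + i)) * (r x ^ (1 + 2 / ((j + 1 : ℕ) : ℝ))) ^ (j + 1) *
        ∏ k : Fin m, ∫ y : Fin m → ℝ,
          ∑ i, pd k.succ (w i) (Fin.cons x y : Fin (m + 1) → ℝ) ^ 2 := by
    intro x
    have h1 := hP (j + 1) (by omega) n (fun i y => w i (Fin.cons x y : Fin (m + 1) → ℝ))
      (fun i => (slice_pd (hw i) x).1) (fun i => (slice_cont (hwc i) (hc i)).2.2.1 x)
    simp only [(slice_pd (hw _) x).2] at h1
    have h2 : (r x ^ (1 + 2 / ((j + 1 : ℕ) : ℝ))) ^ (j + 1) = r x ^ (j + 1 + 2) := by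
      rw [← Real.rpow_natCast, ← Real.rpow_mul (hr0 x), ← Real.rpow_natCast]
      congr 1
      have : ((j + 1 : ℕ) : ℝ) ≠ 0 := by positivity
      field_simp
      push_cast
      ring
    rw [h2]
    exact h1
  have hH := holder_pow (m := m) (j := j + 1) (d := d) rfl (by omega)
    (∏ i ∈ Finset.range m, cj (j + 1 + 1 + i)) (Finset.prod_nonneg fun i _ => cj_nonneg _)
    (fun x => ∫ y : Fin m → ℝ,
      (∑ i, w i (Fin.cons x y : Fin (m + 1) → ℝ) ^ 2) ^ (1 + 2 / (d:ℝ)))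
    (fun x => r x ^ (1 + 2 / ((j + 1 : ℕ) : ℝ)))
    (fun k x => ∫ y : Fin m → ℝ, ∑ i, pd k.succ (w i) (Fin.cons x y : Fin (m + 1) → ℝ) ^ 2)
    (fun x => integral_nonneg fun y => hF _) (fun x => Real.rpow_nonneg (hr0 x) _)
    (fun k x => integral_nonneg fun y => hT0 _ _)
    (slice_integrable hFc hFs) hgi (fun k => slice_integrable (hT _).1 (hT _).2) hslice
  rw [← slice_int hFc hFs] at hH
  simp only [← slice_int (hT _).1 (hT _).2] at hH
  have hri : ∫ x, r x = ∫ z, ∑ i, w i z ^ 2 := (slice_int hρ.1 hρ.2).symm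
  have hQi : ∫ x, Q x = ∫ z, ∑ i, pd 0 (w i) z ^ 2 := (slice_int (hT 0).1 (hT 0).2).symm
  rw [hri, hQi] at hone
  refine hH.trans ?_
  rw [Fin.prod_univ_succ, Finset.prod_range_succ']
  have hC0 : 0 ≤ ∏ i ∈ Finset.range m, cj (j + 1 + 1 + i) :=
    Finset.prod_nonneg fun i _ => cj_nonneg _
  have hT1 : 0 ≤ ∏ k : Fin m, ∫ z, ∑ i, pd k.succ (w i) z ^ 2 :=
    Finset.prod_nonneg fun k _ => integral_nonneg fun z => hT0 _ _
  have e1 : ∏ i ∈ Finset.range m, cj (j + 1 + (i + 1)) =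
      ∏ i ∈ Finset.range m, cj (j + 1 + 1 + i) :=
    Finset.prod_congr rfl fun i _ => by congr 1; omega
  rw [e1, add_zero]
  calc (∏ i ∈ Finset.range m, cj (j + 1 + 1 + i)) *
        (∫ x, r x ^ (1 + 2 / ((j + 1 : ℕ) : ℝ))) ^ (j + 1) *
        ∏ k : Fin m, ∫ z, ∑ i, pd k.succ (w i) z ^ 2 ≤
      (∏ i ∈ Finset.range m, cj (j + 1 + 1 + i)) *
        (cj (j + 1) * (∫ z, ∑ i, pd 0 (w i) z ^ 2) * (∫ z, ∑ i, w i z ^ 2) ^ (j + 1 + 1)) *
        ∏ k : Fin m, ∫ z, ∑ i, pd k.succ (w i) z ^ 2 := by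
        refine mul_le_mul_of_nonneg_right (mul_le_mul_of_nonneg_left hone hC0) hT1
    _ = _ := by ring

theorem P_all (hJ : ∀ j : ℕ, 1 ≤ j → 0 < JJ (2 / (j:ℝ))) (m : ℕ) : P m := by
  induction m with
  | zero => exact P_zero
  | succ m ih => exact P_succ hJ ih

end Pool.Agent.N674.LT
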