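import Mathlib
import Pool.Agent.N674.LT.Vec
import Pool.Agent.N674.LT.Beta
import Pool.Agent.Helper717.LT.P_H_approx
import Pool.Agent.Helper717.LT.P_split_complex

set_option autoImplicit false

/-!
# The kinetic inequality for systems of few functions
-/

open MeasureTheory Set Filter Topology Real
open LTd (pd slice_der slice_int slice_cont slice_pd pd_basic WGrad WGradC H_approx split_complex)

namespace Pool.Agent.N674.LT

/-- the product of the sharp constants -/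
noncomputable def Ad (d : ℕ) : ℝ := ∏ i ∈ Finset.range d, cj (1 + i)

theorem Ad_nonneg (d : ℕ) : 0 ≤ Ad d := Finset.prod_nonneg fun i _ => cj_nonneg _

theorem prod_le {d : ℕ} (hd : 1 ≤ d) (T : Fin d → ℝ) (hT : ∀ k, 0 ≤ T k) :
    ∏ k, T k ≤ ((∑ k, T k) / d) ^ d := by
  have hd0 : (0:ℝ) < d := by exact_mod_cast hd
  have h := Real.geom_mean_le_arith_mean_weighted (Finset.univ : Finset (Fin d))
    (fun _ => 1 / (d:ℝ)) T (fun _ _ => by positivity) (by
      rw [Finset.sum_const, Finset.card_univ, Fintype.card_fin, nsmul_eq_mul]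
      field_simp) (fun k _ => hT k)
  have h2 := pow_le_pow_left₀ (Finset.prod_nonneg fun k _ => Real.rpow_nonneg (hT k) _) h d
  rw [← Finset.prod_pow] at h2
  have e1 : ∀ k, (T k ^ (1 / (d:ℝ))) ^ d = T k := by
    intro k
    rw [← Real.rpow_natCast, ← Real.rpow_mul (hT k), one_div_mul_cancel hd0.ne', Real.rpow_one]
  simp only [e1] at h2
  rw [← Finset.mul_sum] at h2
  have e2 : (∑ k, T k) / (d:ℝ) = 1 / (d:ℝ) * ∑ k, T k := by ring
  rw [e2]
  exact h2

/-- the inequality for continuously differentiable functions with compact support -/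
theorem core1 {d : ℕ} (hd : 1 ≤ d) {n : ℕ} (w : Fin n → (Fin d → ℝ) → ℝ)
    (hw : ∀ i, ContDiff ℝ 1 (w i)) (hc : ∀ i, HasCompactSupport (w i)) {K N : ℝ} (hK : 0 ≤ K)
    (hN : ∫ x, ∑ i, w i x ^ 2 ≤ N) (hKN : K ^ d * Ad d * N ^ 2 ≤ (d:ℝ) ^ d) :
    K * ∫ x, (∑ i, w i x ^ 2) ^ (1 + 2 / (d:ℝ)) ≤ ∫ x, ∑ k, ∑ i, pd k (w i) x ^ 2 := by
  have hd0 : (0:ℝ) < d := by exact_mod_cast hd
  have hP := P_all (fun j hj => JJ_pos hj) d 0 (by omega) n w hw hc
  rw [add_zero] at hP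
  have hρ0 : ∀ z, 0 ≤ ∑ i, w i z ^ 2 := fun z => Finset.sum_nonneg fun i _ => sq_nonneg _
  have hpd : ∀ k i, Continuous (pd k (w i)) ∧ HasCompactSupport (pd k (w i)) := fun k i =>
    pd_basic (hw i) (hc i) k
  have hsq : ∀ {f : (Fin d → ℝ) → ℝ}, HasCompactSupport f →
      HasCompactSupport fun z => f z ^ 2 := fun h =>
    h.comp_left (g := fun t : ℝ => t ^ 2) (by norm_num)
  have hT : ∀ k, Integrable (fun z => ∑ i, pd k (w i) z ^ 2) := fun k => by
    have := sum_cs (fun i z => pd k (w i) z ^ 2) (fun i => (hpd k i).1.pow 2)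
      (fun i => hsq (hpd k i).2)
    exact this.1.integrable_of_hasCompactSupport this.2
  have hT0 : ∀ k, 0 ≤ ∫ z, ∑ i, pd k (w i) z ^ 2 := fun k =>
    integral_nonneg fun z => Finset.sum_nonneg fun i _ => sq_nonneg _
  rw [integral_finsetSum _ fun k _ => hT k]
  set T : ℝ := ∑ k, ∫ z, ∑ i, pd k (w i) z ^ 2 with hTdef
  have hTT : 0 ≤ T := Finset.sum_nonneg fun k _ => hT0 k
  have hm0 : 0 ≤ ∫ x, ∑ i, w i x ^ 2 := integral_nonneg hρ0
  have hI0 : 0 ≤ ∫ x, (∑ i, w i x ^ 2) ^ (1 + 2 / (d:ℝ)) :=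
    integral_nonneg fun x => Real.rpow_nonneg (hρ0 x) _
  have h1 : (∫ x, (∑ i, w i x ^ 2) ^ (1 + 2 / (d:ℝ))) ^ d ≤ Ad d * N ^ 2 * (T / d) ^ d := by
    refine hP.trans ?_
    have e1 : ∏ i ∈ Finset.range d, cj (0 + 1 + i) = Ad d := by
      unfold Ad
      exact Finset.prod_congr rfl fun i _ => by rw [zero_add]
    rw [e1, zero_add]
    have h2 : (∫ x, ∑ i, w i x ^ 2) ^ 2 ≤ N ^ 2 := pow_le_pow_left₀ hm0 hN 2
    exact mul_le_mul (mul_le_mul_of_nonneg_left h2 (Ad_nonneg d)) (prod_le hd _ hT0)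
      (Finset.prod_nonneg fun k _ => hT0 k) (mul_nonneg (Ad_nonneg d) (sq_nonneg _))
  have h3 : (K * ∫ x, (∑ i, w i x ^ 2) ^ (1 + 2 / (d:ℝ))) ^ d ≤ T ^ d := by
    rw [mul_pow]
    calc K ^ d * (∫ x, (∑ i, w i x ^ 2) ^ (1 + 2 / (d:ℝ))) ^ d ≤
        K ^ d * (Ad d * N ^ 2 * (T / d) ^ d) := mul_le_mul_of_nonneg_left h1 (pow_nonneg hK _)
      _ = (K ^ d * Ad d * N ^ 2) * (T / d) ^ d := by ring
      _ ≤ (d:ℝ) ^ d * (T / d) ^ d := mul_le_mul_of_nonneg_right hKN (by positivity)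
      _ = T ^ d := by rw [← mul_pow, mul_div_cancel₀ _ hd0.ne']
  exact le_of_pow_le_pow_left₀ (by omega) hTT h3

/-- the inequality for real functions of the Sobolev space -/
theorem real1 {d : ℕ} (hd : 1 ≤ d) {n : ℕ} (f : Fin n → (Fin d → ℝ) → ℝ)
    (g : Fin n → Fin d → (Fin d → ℝ) → ℝ) (hf : ∀ i, WGrad (f i) (g i)) {K N : ℝ} (hK : 0 < K)
    (hN : ∫ x, ∑ i, f i x ^ 2 ≤ N) (hKN : K ^ d * Ad d * N ^ 2 ≤ (d:ℝ) ^ d) :
    Integrable (fun x => (∑ i, f i x ^ 2) ^ (1 + 2 / (d:ℝ))) ∧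
    K * ∫ x, (∑ i, f i x ^ 2) ^ (1 + 2 / (d:ℝ)) ≤ ∫ x, ∑ j, ∑ i, g i j x ^ 2 := by
  have hd0 : (0:ℝ) < d := by exact_mod_cast hd
  have hp : 0 < 1 + 2 / (d:ℝ) := by positivity
  set p := 1 + 2 / (d:ℝ) with hpdef
  set E := ∫ x, ∑ j, ∑ i, g i j x ^ 2 with hE
  have hE0 : 0 ≤ E := integral_nonneg fun x =>
    Finset.sum_nonneg fun j _ => Finset.sum_nonneg fun i _ => sq_nonneg _
  obtain ⟨F, hF1, hF2, hF3, hF4, hF5⟩ := H_approx f g hf
  have hcont : ∀ k, Continuous fun x => (∑ i, F k i x ^ 2) ^ p := by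
    intro k
    refine Continuous.rpow_const ?_ (fun x => Or.inr hp.le)
    exact continuous_finsetSum _ fun i _ => ((hF1 k i).continuous.pow 2)
  have hcs : ∀ k, HasCompactSupport fun x => (∑ i, F k i x ^ 2) ^ p := by
    intro k
    refine HasCompactSupport.intro (K := ⋃ i, tsupport (F k i))
      (isCompact_iUnion fun i => hF2 k i) ?_
    intro x hx
    have : ∀ i, F k i x = 0 := by
      intro i
      by_contra h
      exact hx (mem_iUnion.2 ⟨i, subset_tsupport _ h⟩)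
    simp only [this]
    simp [Real.zero_rpow hp.ne']
  have hint : ∀ k, Integrable fun x => (∑ i, F k i x ^ 2) ^ p := fun k =>
    (hcont k).integrable_of_hasCompactSupport (hcs k)
  have hnn : ∀ k x, 0 ≤ (∑ i, F k i x ^ 2) ^ p := fun k x =>
    Real.rpow_nonneg (Finset.sum_nonneg fun i _ => sq_nonneg _) _
  have hnn' : ∀ x, 0 ≤ (∑ i, f i x ^ 2) ^ p := fun x =>
    Real.rpow_nonneg (Finset.sum_nonneg fun i _ => sq_nonneg _) _
  have hFi : ∀ k i, Integrable fun x => F k i x ^ 2 := by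
    intro k i
    have h1 : Continuous fun x => F k i x ^ 2 := (hF1 k i).continuous.pow 2
    have h2 : HasCompactSupport fun x => F k i x ^ 2 :=
      (hF2 k i).comp_left (g := fun t : ℝ => t ^ 2) (by norm_num)
    exact h1.integrable_of_hasCompactSupport h2
  have hfi : ∀ i, Integrable fun x => f i x ^ 2 := fun i => (hf i).f2.integrable_sq
  have hmass : ∀ k, ∫ x, ∑ i, F k i x ^ 2 ≤ N := by
    intro k
    refine le_trans ?_ hN
    rw [integral_finsetSum _ fun i _ => hFi k i, integral_finsetSum _ fun i _ => hfi i]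
    refine Finset.sum_le_sum fun i _ => ?_
    have := hF3 k (Pi.single i 1)
    simpa [Pi.single_apply] using this
  have hbound : ∀ k : ℕ, ∫ x, (∑ i, F k i x ^ 2) ^ p ≤ (E + 1 / ((k:ℝ) + 1)) / K := by
    intro k
    rw [le_div_iff₀' hK]
    exact (core1 hd (F k) (hF1 k) (hF2 k) hK.le (hmass k) hKN).trans (hF5 k)
  have hlim : ∀ᵐ x, Tendsto (fun k => (∑ i, F k i x ^ 2) ^ p) atTop (𝓝 ((∑ i, f i x ^ 2) ^ p)) := by
    filter_upwards [hF4] with x hx
    exact (tendsto_finsetSum _ fun i _ => (hx i).pow 2).rpow_const (Or.inr hp.le)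
  have haesm : AEStronglyMeasurable (fun x => (∑ i, f i x ^ 2) ^ p) volume :=
    aestronglyMeasurable_of_tendsto_ae atTop (fun k => (hint k).aestronglyMeasurable) hlim
  have hfatou : ∫⁻ x, ENNReal.ofReal ((∑ i, f i x ^ 2) ^ p) ≤ ENNReal.ofReal (E / K) := by
    calc ∫⁻ x, ENNReal.ofReal ((∑ i, f i x ^ 2) ^ p)
        = ∫⁻ x, liminf (fun k => ENNReal.ofReal ((∑ i, F k i x ^ 2) ^ p)) atTop := by
          apply lintegral_congr_ae
          filter_upwards [hlim] with x hx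
          exact ((ENNReal.continuous_ofReal.tendsto _).comp hx).liminf_eq.symm
      _ ≤ liminf (fun k => ∫⁻ x, ENNReal.ofReal ((∑ i, F k i x ^ 2) ^ p)) atTop :=
          lintegral_liminf_le' fun k => (hcont k).measurable.ennreal_ofReal.aemeasurable
      _ ≤ liminf (fun k : ℕ => ENNReal.ofReal ((E + 1 / ((k:ℝ) + 1)) / K)) atTop := by
          refine liminf_le_liminf (Eventually.of_forall fun k => ?_)
          change ∫⁻ x, ENNReal.ofReal ((∑ i, F k i x ^ 2) ^ p) ≤ _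
          rw [← ofReal_integral_eq_lintegral_ofReal (hint k) (Eventually.of_forall (hnn k))]
          exact ENNReal.ofReal_le_ofReal (hbound k)
      _ = ENNReal.ofReal (E / K) := by
          apply Tendsto.liminf_eq
          apply (ENNReal.continuous_ofReal.tendsto _).comp
          have h1 : Tendsto (fun k : ℕ => (E + 1 / ((k:ℝ) + 1)) / K) atTop (𝓝 ((E + 0) / K)) :=
            (tendsto_one_div_add_atTop_nhds_zero_nat.const_add E).div_const K
          rwa [add_zero] at h1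
  have hI : Integrable (fun x => (∑ i, f i x ^ 2) ^ p) := by
    refine ⟨haesm, ?_⟩
    rw [hasFiniteIntegral_iff_ofReal (Eventually.of_forall hnn')]
    exact lt_of_le_of_lt hfatou ENNReal.ofReal_lt_top
  refine ⟨hI, ?_⟩
  rw [← le_div_iff₀' hK, integral_eq_lintegral_of_nonneg_ae (Eventually.of_forall hnn') haesm]
  exact ENNReal.toReal_le_of_le_ofReal (by positivity) hfatou

/-- the inequality for complex functions of the Sobolev space -/
theorem complex1 {d : ℕ} (hd : 1 ≤ d) {N : ℕ} (u : Fin N → (Fin d → ℝ) → ℂ)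
    (g : Fin N → Fin d → (Fin d → ℝ) → ℂ) (hu : ∀ i, WGradC (u i) (g i))
    {μ : ℝ} (ho : ∑ i, ∫ x, ‖u i x‖ ^ 2 ≤ μ) {K : ℝ} (hK : 0 < K)
    (hKN : K ^ d * Ad d * μ ^ 2 ≤ (d:ℝ) ^ d) :
    Integrable (fun x => (∑ i, ‖u i x‖ ^ 2) ^ (1 + 2 / (d:ℝ))) ∧
    K * ∫ x, (∑ i, ‖u i x‖ ^ 2) ^ (1 + 2 / (d:ℝ)) ≤ ∑ i, ∑ k, ∫ x, ‖g i k x‖ ^ 2 := by
  have hsq : ∀ z : ℂ, ‖z‖ ^ 2 = z.re ^ 2 + z.im ^ 2 := by
    intro z
    rw [Complex.sq_norm, Complex.normSq_apply]; ring
  let F : Fin (N + N) → (Fin d → ℝ) → ℝ :=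
    Fin.append (fun i x => (u i x).re) (fun i x => (u i x).im)
  let G : Fin (N + N) → Fin d → (Fin d → ℝ) → ℝ :=
    Fin.append (fun i k x => (g i k x).re) (fun i k x => (g i k x).im)
  have hFl : ∀ i, F (Fin.castAdd N i) = fun x => (u i x).re := fun i => Fin.append_left _ _ i
  have hFr : ∀ i, F (Fin.natAdd N i) = fun x => (u i x).im := fun i => Fin.append_right _ _ i
  have hGl : ∀ i, G (Fin.castAdd N i) = fun k x => (g i k x).re := fun i => Fin.append_left _ _ i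
  have hGr : ∀ i, G (Fin.natAdd N i) = fun k x => (g i k x).im := fun i => Fin.append_right _ _ i
  have hW : ∀ i, WGrad (F i) (G i) := by
    intro i
    refine Fin.addCases (fun i => ?_) (fun i => ?_) i
    · rw [hFl, hGl]
      exact (split_complex (hu i)).1
    · rw [hFr, hGr]
      exact (split_complex (hu i)).2
  have hFs : ∀ x, ∑ i, F i x ^ 2 = ∑ i, ‖u i x‖ ^ 2 := by
    intro x
    rw [Fin.sum_univ_add, ← Finset.sum_add_distrib]
    simp only [hFl, hFr, hsq]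
  have hGs : ∀ x, ∑ j, ∑ i, G i j x ^ 2 = ∑ i, ∑ j, ‖g i j x‖ ^ 2 := by
    intro x
    rw [Finset.sum_comm, Fin.sum_univ_add, ← Finset.sum_add_distrib]
    refine Finset.sum_congr rfl fun i _ => ?_
    rw [← Finset.sum_add_distrib]
    simp only [hGl, hGr, hsq]
  have hI2 : ∀ i, Integrable (fun x => ‖u i x‖ ^ 2) := fun i =>
    (hu i).f2.integrable_norm_pow two_ne_zero
  have hmass : ∫ x, ∑ i, F i x ^ 2 ≤ μ := by
    simp only [hFs]
    rw [integral_finsetSum _ fun i _ => hI2 i]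
    exact ho
  have hH := real1 hd F G hW hK hmass hKN
  simp only [hFs, hGs] at hH
  refine ⟨hH.1, ?_⟩
  have hI : ∀ i k, Integrable (fun x => ‖g i k x‖ ^ 2) := by
    intro i k
    have := (hu i).g2 k
    exact this.integrable_norm_pow two_ne_zero
  have hint : ∫ x, ∑ i, ∑ j, ‖g i j x‖ ^ 2 = ∑ i, ∑ k, ∫ x, ‖g i k x‖ ^ 2 := by
    rw [integral_finsetSum _ (fun i _ => integrable_finsetSum _ (fun k _ => hI i k))]
    refine Finset.sum_congr rfl fun i _ => ?_
    rw [integral_finsetSum _ (fun k _ => hI i k)]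
  rw [hint] at hH
  exact hH.2

end Pool.Agent.N674.LT
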