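import Mathlib
import Pool.Agent.N674.LT.Main

set_option autoImplicit false

/-!
# Comparison with the semiclassical constant
-/

open MeasureTheory Set Filter Topology Real
open LTd (Kcl)

namespace Pool.Agent.N674.LT

/-- the square of the threshold -/
noncomputable def ad (d : ℕ) : ℝ :=
  ((d:ℝ) + 1) ^ (d - 1) * ((d:ℝ) + 2) ^ d / (4 ^ d * (d.factorial : ℝ) ^ 2)

theorem ad_pos (d : ℕ) : 0 < ad d := by
  unfold ad
  have : (0:ℝ) < (d.factorial : ℝ) := by exact_mod_cast d.factorial_pos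
  positivity

/-- the threshold `N_d` -/
noncomputable def Nd (d : ℕ) : ℝ := √(ad d)

theorem Nd_pos (d : ℕ) : 0 < Nd d := Real.sqrt_pos.2 (ad_pos d)

theorem Nd_sq (d : ℕ) : Nd d ^ 2 = ad d := Real.sq_sqrt (ad_pos d).le

theorem Kcl_pos {d : ℕ} (hd : 1 ≤ d) : 0 < Kcl d := by
  have hd0 : (0:ℝ) < d := by exact_mod_cast hd
  have hv : 0 < (volume (Metric.ball (0 : EuclideanSpace ℝ (Fin d)) 1)).toReal :=
    ENNReal.toReal_pos (Metric.measure_ball_pos volume 0 one_pos).ne' measure_ball_lt_top.ne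
  unfold Kcl
  positivity

theorem Kcl_pow {d : ℕ} (hd : 1 ≤ d) : Kcl d ^ d =
    (d:ℝ) ^ d / ((d:ℝ) + 2) ^ d * (4 * π) ^ d * Gamma ((d:ℝ) / 2 + 1) ^ 2 := by
  have hd0 : (0:ℝ) < d := by exact_mod_cast hd
  have hπ : 0 < π := Real.pi_pos
  have hG := Real.Gamma_pos_of_pos (show 0 < (d:ℝ) / 2 + 1 by positivity)
  have : Nonempty (Fin d) := ⟨⟨0, hd⟩⟩
  have hv : (volume (Metric.ball (0 : EuclideanSpace ℝ (Fin d)) 1)).toReal =
      √π ^ d / Gamma ((d:ℝ) / 2 + 1) := by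
    rw [EuclideanSpace.volume_ball, Fintype.card_fin, ENNReal.ofReal_one, one_pow, one_mul,
      ENNReal.toReal_ofReal (by positivity)]
  have hv0 : 0 ≤ √π ^ d / Gamma ((d:ℝ) / 2 + 1) := by positivity
  unfold Kcl
  rw [hv, mul_pow, div_pow, div_pow, ← Real.rpow_natCast ((√π ^ d / Gamma ((d:ℝ) / 2 + 1)) ^ _) d,
    ← Real.rpow_mul hv0, div_mul_cancel₀ _ hd0.ne', Real.rpow_ofNat, div_pow]
  have e1 : ((2 * π) ^ 2) ^ d = (4 * π) ^ d * π ^ d := by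
    rw [← mul_pow]; congr 1; ring
  have e2 : (√π ^ d) ^ 2 = π ^ d := by
    rw [← pow_mul, mul_comm d 2, pow_mul, Real.sq_sqrt hπ.le]
  rw [e1, e2]
  field_simp

theorem key_const {d : ℕ} (hd : 1 ≤ d) : Kcl d ^ d * Ad d * ad d = (d:ℝ) ^ d := by
  have hd0 : (0:ℝ) < d := by exact_mod_cast hd
  have hπ : 0 < π := Real.pi_pos
  have hs : √π ^ 2 = π := Real.sq_sqrt hπ.le
  have hG1 := Real.Gamma_pos_of_pos (show 0 < (d:ℝ) / 2 + 1 by positivity)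
  have hG2 := Real.Gamma_pos_of_pos (show 0 < (d:ℝ) / 2 + 3 / 2 by positivity)
  have hfac : (0:ℝ) < (d.factorial : ℝ) := by exact_mod_cast d.factorial_pos
  -- duplication formula
  have hdup := Real.Gamma_mul_Gamma_add_half ((d:ℝ) / 2 + 1)
  have e1 : (d:ℝ) / 2 + 1 + 1 / 2 = (d:ℝ) / 2 + 3 / 2 := by ring
  have e2 : 2 * ((d:ℝ) / 2 + 1) = ((d + 1 : ℕ) : ℝ) + 1 := by push_cast; ring
  have e3 : (1:ℝ) - (((d + 1 : ℕ) : ℝ) + 1) = -((d + 1 : ℕ) : ℝ) := by ring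
  rw [e1, e2, Real.Gamma_nat_eq_factorial, e3, Real.rpow_neg (by norm_num), Real.rpow_natCast,
    Nat.factorial_succ] at hdup
  push_cast at hdup
  have hdup2 : Gamma ((d:ℝ) / 2 + 1) ^ 2 * Gamma ((d:ℝ) / 2 + 3 / 2) ^ 2 =
      (((d:ℝ) + 1) * (d.factorial : ℝ)) ^ 2 * π / (4 ^ (d + 1)) := by
    rw [← mul_pow, hdup, mul_pow, mul_pow, hs, inv_pow, ← pow_mul, mul_comm (d + 1) 2,
      pow_mul 2 2 (d + 1)]
    norm_num
    ring
  rw [Kcl_pow hd, Ad, prod_cj, ad]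
  have e5 : ((d:ℝ) + 1) ^ (d + 1) = ((d:ℝ) + 1) ^ (d - 1) * ((d:ℝ) + 1) ^ 2 := by
    rw [← pow_add]; congr 1; omega
  rw [e5]
  have e6 : (d:ℝ) ^ d / ((d:ℝ) + 2) ^ d * (4 * π) ^ d * Gamma ((d:ℝ) / 2 + 1) ^ 2 *
      ((4 / π) ^ (d + 1) * Gamma ((d:ℝ) / 2 + 3 / 2) ^ 2 /
        (((d:ℝ) + 1) ^ (d - 1) * ((d:ℝ) + 1) ^ 2)) *
      (((d:ℝ) + 1) ^ (d - 1) * ((d:ℝ) + 2) ^ d / (4 ^ d * (d.factorial : ℝ) ^ 2)) =
      (d:ℝ) ^ d * (4 * π) ^ d * (4 / π) ^ (d + 1) / (((d:ℝ) + 1) ^ 2 *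
        (4 ^ d * (d.factorial : ℝ) ^ 2)) *
        (Gamma ((d:ℝ) / 2 + 1) ^ 2 * Gamma ((d:ℝ) / 2 + 3 / 2) ^ 2) := by
    have h1 : (0:ℝ) < ((d:ℝ) + 1) ^ (d - 1) := by positivity
    field_simp
  rw [e6, hdup2]
  have e7 : (4 * π) ^ d * (4 / π) ^ (d + 1) = 4 ^ d * 4 ^ (d + 1) / π := by
    rw [mul_pow, div_pow, pow_succ π d]
    field_simp
  calc (d:ℝ) ^ d * (4 * π) ^ d * (4 / π) ^ (d + 1) / (((d:ℝ) + 1) ^ 2 *
        (4 ^ d * (d.factorial : ℝ) ^ 2)) * ((((d:ℝ) + 1) * (d.factorial : ℝ)) ^ 2 * π /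
          (4 ^ (d + 1))) = (d:ℝ) ^ d * ((4 * π) ^ d * (4 / π) ^ (d + 1)) / (((d:ℝ) + 1) ^ 2 *
        (4 ^ d * (d.factorial : ℝ) ^ 2)) * ((((d:ℝ) + 1) * (d.factorial : ℝ)) ^ 2 * π /
          (4 ^ (d + 1))) := by ring
    _ = (d:ℝ) ^ d := by
      rw [e7]
      field_simp

/-- the ratio of consecutive values -/
theorem ad_succ {d : ℕ} (hd : 1 ≤ d) :
    ad (d + 1) = ad d * ((1 + 2 / ((d + 1 : ℕ) : ℝ)) ^ (d + 1) / 4) := by
  have hfac : (0:ℝ) < (d.factorial : ℝ) := by exact_mod_cast d.factorial_pos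
  obtain ⟨e, rfl⟩ : ∃ e, d = e + 1 := ⟨d - 1, by omega⟩
  unfold ad
  rw [Nat.factorial_succ (e + 1)]
  simp only [Nat.add_sub_cancel]
  push_cast
  have h1 : (1 + 2 / ((e:ℝ) + 1 + 1)) = ((e:ℝ) + 1 + 1 + 2) / ((e:ℝ) + 1 + 1) := by
    field_simp
  rw [h1, div_pow]
  have h2 : ((e:ℝ) + 1 + 1 + 1) = (e:ℝ) + 1 + 2 := by ring
  rw [h2]
  have h3 : (0:ℝ) < (e:ℝ) + 1 + 1 := by positivity
  have h4 : ((e:ℝ) + 1 + 1) ^ (e + 1 + 1) = ((e:ℝ) + 1 + 1) ^ e * ((e:ℝ) + 1 + 1) ^ 2 := by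
    rw [← pow_add]
  rw [h4]
  have h5 : (0:ℝ) < ((e:ℝ) + 1 + 1) ^ e := by positivity
  field_simp
  ring

theorem ratio_ge {d : ℕ} (hd : 1 ≤ d) : 1 ≤ (1 + 2 / ((d + 1 : ℕ) : ℝ)) ^ (d + 1) / 4 := by
  have hd0 : (1:ℝ) ≤ d := by exact_mod_cast hd
  have h1 : (0:ℝ) < ((d + 1 : ℕ) : ℝ) := by positivity
  -- (1 + x) ^ (d + 1) ≥ (1 + (d + 1) x / 2) ^ 2 by Bernoulli for exponents (d + 1) / 2
  have h2 : (1 + 2 / ((d + 1 : ℕ) : ℝ)) ^ (d + 1) = ((1 + 2 / ((d + 1 : ℕ) : ℝ)) ^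
      ((((d + 1 : ℕ) : ℝ)) / 2)) ^ 2 := by
    rw [← Real.rpow_natCast _ 2, ← Real.rpow_mul (by positivity), ← Real.rpow_natCast]
    congr 1
    push_cast
    ring
  have h3 : (2:ℝ) ≤ (1 + 2 / ((d + 1 : ℕ) : ℝ)) ^ ((((d + 1 : ℕ) : ℝ)) / 2) := by
    have h4 := one_add_mul_self_le_rpow_one_add (s := 2 / ((d + 1 : ℕ) : ℝ))
      (by linarith [show (0:ℝ) ≤ 2 / ((d + 1 : ℕ) : ℝ) by positivity])
      (p := (((d + 1 : ℕ) : ℝ)) / 2) (by push_cast; linarith)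
    have h5 : 1 + (((d + 1 : ℕ) : ℝ)) / 2 * (2 / ((d + 1 : ℕ) : ℝ)) = 2 := by
      field_simp; norm_num
    rw [h5] at h4
    exact h4
  rw [h2]
  nlinarith

theorem ad_mono {m d : ℕ} (hm : 1 ≤ m) (h : m ≤ d) : ad m ≤ ad d := by
  induction d, h using Nat.le_induction with
  | base => exact le_rfl
  | succ d hd ih =>
    rw [ad_succ (by omega)]
    have h1 := ratio_ge (show 1 ≤ d by omega)
    have h2 := ad_pos d
    nlinarith

theorem one_lt_Nd {d : ℕ} (hd : 4 ≤ d) : 1 < Nd d := by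
  have h1 : 1 < ad 4 := by
    unfold ad
    norm_num [Nat.factorial]
  have h2 := ad_mono (by norm_num) hd
  unfold Nd
  rw [Real.lt_sqrt (by norm_num)]
  linarith

theorem two_le_Nd {d : ℕ} (hd : 8 ≤ d) : 2 ≤ Nd d := by
  have h1 : 4 ≤ ad 8 := by
    unfold ad
    norm_num [Nat.factorial]
  have h2 := ad_mono (by norm_num) hd
  unfold Nd
  exact le_trans (le_abs_self _) (Real.abs_le_sqrt (by linarith))

theorem ten_le_Nd {d : ℕ} (hd : 16 ≤ d) : 10 ≤ Nd d := by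
  have h1 : 100 ≤ ad 16 := by
    unfold ad
    norm_num [Nat.factorial]
  have h2 := ad_mono (by norm_num) hd
  unfold Nd
  exact le_trans (le_abs_self _) (Real.abs_le_sqrt (by linarith))

/-- exponential growth of the threshold -/
theorem Nd_growth {c : ℝ} (hc0 : 0 ≤ c) (hc : c < Real.exp 1 / 2) :
    ∀ᶠ d : ℕ in atTop, c ^ d ≤ Nd d := by
  obtain ⟨c', hc1, hc2⟩ := exists_between hc
  have hc'0 : 0 < c' := lt_of_le_of_lt hc0 hc1
  have hlim : Tendsto (fun d : ℕ => (1 + 2 / ((d + 1 : ℕ) : ℝ)) ^ (d + 1) / 4) atTop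
      (𝓝 (Real.exp 2 / 4)) := by
    have h1 := (Real.tendsto_one_add_div_pow_exp 2).comp (tendsto_add_atTop_nat 1)
    exact h1.div_const 4
  have hlt : c' ^ 2 < Real.exp 2 / 4 := by
    have h1 : Real.exp 2 = Real.exp 1 ^ 2 := by
      rw [← Real.exp_nat_mul]; norm_num
    rw [h1]
    have h2 : c' ^ 2 < (Real.exp 1 / 2) ^ 2 := pow_lt_pow_left₀ hc2 hc'0.le (by norm_num)
    calc c' ^ 2 < (Real.exp 1 / 2) ^ 2 := h2
      _ = Real.exp 1 ^ 2 / 4 := by ring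
  obtain ⟨D, hD⟩ := eventually_atTop.1 (hlim.eventually (lt_mem_nhds hlt))
  set E := max D 1 with hE
  have hgr : ∀ d, E ≤ d → ad E * (c' ^ 2) ^ (d - E) ≤ ad d := by
    intro d hd
    induction d, hd using Nat.le_induction with
    | base => simp
    | succ d hd ih =>
      have h1 : 1 ≤ d := le_trans (le_max_right _ _) hd
      have h2 := hD d (le_trans (le_max_left _ _) hd)
      rw [ad_succ h1, show d + 1 - E = (d - E) + 1 by omega, pow_succ, ← mul_assoc]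
      exact mul_le_mul ih h2.le (by positivity) (ad_pos d).le
  -- conclusion
  have hq : Tendsto (fun d : ℕ => (c ^ 2 / c' ^ 2) ^ d) atTop (𝓝 0) := by
    refine tendsto_pow_atTop_nhds_zero_of_lt_one (by positivity) ?_
    rw [div_lt_one (by positivity)]
    exact pow_lt_pow_left₀ hc1 hc0 (by norm_num)
  have hC : 0 < ad E / (c' ^ 2) ^ E := div_pos (ad_pos E) (by positivity)
  filter_upwards [hq.eventually (gt_mem_nhds hC), eventually_ge_atTop E] with d h1 h2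
  have h3 := hgr d h2
  have h4 : (c' ^ 2) ^ d = (c' ^ 2) ^ (d - E) * (c' ^ 2) ^ E := by
    rw [← pow_add]; congr 1; omega
  have h5 : (c ^ 2) ^ d ≤ ad d := by
    rw [div_pow, div_lt_div_iff₀ (by positivity) (by positivity), h4] at h1
    have h6 : 0 < (c' ^ 2) ^ E := by positivity
    have h7 : (c ^ 2) ^ d < ad E * (c' ^ 2) ^ (d - E) := by
      have : (c ^ 2) ^ d * (c' ^ 2) ^ E < ad E * (c' ^ 2) ^ (d - E) * (c' ^ 2) ^ E := by
        linarith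
      exact lt_of_mul_lt_mul_right this h6.le
    linarith
  unfold Nd
  refine le_trans (le_abs_self _) (Real.abs_le_sqrt ?_)
  calc (c ^ d) ^ 2 = (c ^ 2) ^ d := by rw [← pow_mul, ← pow_mul, mul_comm]
    _ ≤ ad d := h5

end Pool.Agent.N674.LT
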