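import Mathlib
import Pool.Agent.N674.LT.Const
import Pool.Agent.Helper717.LT.P_core
import Pool.Agent.Helper717.LT.P_gram_complex

set_option autoImplicit false

/-!
# The kinetic inequality for systems with few transversal modes
-/

open MeasureTheory Set Filter Topology Real
open LTd (pd slice_der slice_int slice_cont slice_pd pd_basic Mat RS SS QS)
open scoped Matrix

namespace Pool.Agent.N674.LT

theorem cube_sum {ι : Type*} [Fintype ι] (r : ι → ℝ) (hr : ∀ i, 0 ≤ r i) {n : ℕ}
    (hn : (Finset.univ.filter fun i => r i ≠ 0).card ≤ n) :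
    (∑ i, r i) ^ 3 ≤ (n:ℝ) ^ 2 * ∑ i, r i ^ 3 := by
  classical
  set s := Finset.univ.filter fun i => r i ≠ 0 with hs
  have h1 : ∑ i, r i = ∑ i ∈ s, r i := by
    rw [hs, Finset.sum_filter]
    exact Finset.sum_congr rfl fun i _ => by split_ifs with h <;> simp_all
  have h2 : ∑ i ∈ s, r i ^ 3 ≤ ∑ i, r i ^ 3 :=
    Finset.sum_le_univ_sum_of_nonneg fun i => pow_nonneg (hr i) 3
  have h3 := pow_sum_div_card_le_sum_pow (s := s) (f := r) (fun i _ => hr i) 2
  norm_num at h3
  rcases s.eq_empty_or_nonempty with he | hne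
  · rw [h1, he, Finset.sum_empty]
    have : 0 ≤ (n:ℝ) ^ 2 * ∑ i, r i ^ 3 :=
      mul_nonneg (sq_nonneg _) (Finset.sum_nonneg fun i _ => pow_nonneg (hr i) 3)
    simpa using this
  · have hc : (0:ℝ) < (s.card : ℝ) := by exact_mod_cast Finset.card_pos.2 hne
    rw [div_le_iff₀ (by positivity)] at h3
    rw [h1]
    have h4 : (s.card : ℝ) ^ 2 ≤ (n:ℝ) ^ 2 :=
      pow_le_pow_left₀ hc.le (by exact_mod_cast hn) 2
    have h5 : 0 ≤ ∑ i ∈ s, r i ^ 3 := Finset.sum_nonneg fun i _ => pow_nonneg (hr i) 3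
    calc (∑ i ∈ s, r i) ^ 3 ≤ (∑ i ∈ s, r i ^ 3) * (s.card : ℝ) ^ 2 := h3
      _ ≤ (∑ i ∈ s, r i ^ 3) * (n:ℝ) ^ 2 := mul_le_mul_of_nonneg_left h4 h5
      _ ≤ (∑ i, r i ^ 3) * (n:ℝ) ^ 2 := mul_le_mul_of_nonneg_right h2 (sq_nonneg _)
      _ = _ := by ring

/-- the number of nonzero eigenvalues of the Gram matrix of functions in the span of `n`
functions -/
theorem count_eig {m n N : ℕ} (f : Fin N → (Fin m → ℝ) → ℝ)
    (hint : ∀ i j, Integrable fun y => f i y * f j y)
    (φ : Fin n → (Fin m → ℝ) → ℝ) (hφ : ∀ i, ∃ c : Fin n → ℝ, ∀ y, f i y = ∑ a, c a * φ a y)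
    (V : Mat N) (r : Fin N → ℝ) (hV' : Vᵀ * V = 1)
    (hR : (Matrix.of fun i j => ∫ y, f i y * f j y : Mat N) = V * Matrix.diagonal r * Vᵀ) :
    (Finset.univ.filter fun i => r i ≠ 0).card ≤ n := by
  classical
  set v : Fin N → (Fin m → ℝ) → ℝ := fun i y => ∑ p, V p i * f p y with hv
  have hvv : ∀ i j, ∫ y, v i y * v j y = if i = j then r i else 0 := by
    intro i j
    have h2 : (fun y => v i y * v j y) =
        fun y => ∑ p, ∑ q, (V p i * V q j) * (f p y * f q y) := by
      funext y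
      simp only [hv]
      rw [Finset.sum_mul_sum]
      refine Finset.sum_congr rfl fun p _ => Finset.sum_congr rfl fun q _ => ?_
      ring
    rw [h2, integral_finsetSum _ fun p _ => integrable_finsetSum _ fun q _ =>
      (hint p q).const_mul _]
    have h3 : ∀ p ∈ (Finset.univ : Finset (Fin N)),
        ∫ y, ∑ q, (V p i * V q j) * (f p y * f q y) =
        ∑ q, (V p i * V q j) * (Matrix.of fun i j => ∫ y, f i y * f j y : Mat N) p q := by
      intro p _
      rw [integral_finsetSum _ fun q _ => (hint p q).const_mul _]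
      refine Finset.sum_congr rfl fun q _ => ?_
      rw [integral_const_mul]
      rfl
    rw [Finset.sum_congr rfl h3, hR]
    have h4 : Vᵀ * (V * Matrix.diagonal r * Vᵀ) * V = Matrix.diagonal r := by
      rw [← Matrix.mul_assoc, ← Matrix.mul_assoc, hV', Matrix.one_mul, Matrix.mul_assoc, hV',
        Matrix.mul_one]
    have h5 : (Vᵀ * (V * Matrix.diagonal r * Vᵀ) * V) i j =
        ∑ p, ∑ q, (V p i * V q j) * (V * Matrix.diagonal r * Vᵀ) p q := by
      rw [Matrix.mul_apply, Finset.sum_comm]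
      refine Finset.sum_congr rfl fun q _ => ?_
      rw [Matrix.mul_apply, Finset.sum_mul]
      refine Finset.sum_congr rfl fun p _ => ?_
      rw [Matrix.transpose_apply]
      ring
    rw [← h5, h4, Matrix.diagonal_apply]
  have hvint : ∀ i j, Integrable fun y => v i y * v j y := by
    intro i j
    have h2 : (fun y => v i y * v j y) =
        fun y => ∑ p, ∑ q, (V p i * V q j) * (f p y * f q y) := by
      funext y
      simp only [hv]
      rw [Finset.sum_mul_sum]
      refine Finset.sum_congr rfl fun p _ => Finset.sum_congr rfl fun q _ => ?_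
      ring
    rw [h2]
    exact integrable_finsetSum _ fun p _ => integrable_finsetSum _ fun q _ =>
      (hint p q).const_mul _
  let S := {i : Fin N // r i ≠ 0}
  have hli : LinearIndependent ℝ fun i : S => v i.1 := by
    rw [Fintype.linearIndependent_iff]
    intro c hc i
    have h1 : ∫ y, (∑ j : S, c j * v j.1 y) * v i.1 y = c i * r i.1 := by
      have h2 : (fun y => (∑ j : S, c j * v j.1 y) * v i.1 y) =
          fun y => ∑ j : S, c j * (v j.1 y * v i.1 y) := by
        funext y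
        rw [Finset.sum_mul]
        exact Finset.sum_congr rfl fun j _ => by ring
      rw [h2, integral_finsetSum _ fun j _ => (hvint _ _).const_mul _]
      simp only [integral_const_mul, hvv]
      rw [Finset.sum_eq_single i]
      · rw [if_pos rfl]
      · intro j _ hj
        rw [if_neg fun h => hj (Subtype.ext h), mul_zero]
      · intro h; exact absurd (Finset.mem_univ i) h
    have h3 : ∀ y, ∑ j : S, c j * v j.1 y = 0 := by
      intro y
      have := congrFun hc y
      simpa [Finset.sum_apply, Pi.smul_apply, smul_eq_mul] using this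
    simp only [h3, zero_mul, integral_zero] at h1
    exact (mul_eq_zero.1 h1.symm).resolve_right i.2
  have hspan : Set.range (fun i : S => v i.1) ≤ Submodule.span ℝ (Set.range φ) := by
    rintro _ ⟨i, rfl⟩
    have h1 : v i.1 = ∑ p, V p i.1 • f p := by
      funext y
      simp [hv, Finset.sum_apply]
    have h2 : ∀ p, f p ∈ Submodule.span ℝ (Set.range φ) := by
      intro p
      obtain ⟨c, hc⟩ := hφ p
      have h3 : f p = ∑ a, c a • φ a := by
        funext y
        rw [hc y]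
        simp [Finset.sum_apply]
      rw [h3]
      exact Submodule.sum_mem _ fun a _ => Submodule.smul_mem _ _ (Submodule.subset_span ⟨a, rfl⟩)
    show v i.1 ∈ Submodule.span ℝ (Set.range φ)
    rw [h1]
    exact Submodule.sum_mem _ fun p _ => Submodule.smul_mem _ _ (h2 p)
  have h6 := linearIndependent_le_span' (fun i : S => v i.1) hli (Set.range φ) hspan
  rw [Cardinal.mk_fintype] at h6
  have h7 : Fintype.card S ≤ Fintype.card (Set.range φ) := by exact_mod_cast h6
  have h8 : Fintype.card (Set.range φ) ≤ n := by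
    have := Fintype.card_range_le φ
    simpa using this
  rw [← Fintype.card_subtype]
  exact h7.trans h8

/-- The inequality for real functions of class `C¹` with compact support, arbitrarily many, with at
most `n` transversal modes. -/
theorem modes_real {m N n : ℕ} (w : Fin N → (Fin (m + 1) → ℝ) → ℝ)
    (hw : ∀ i, ContDiff ℝ 1 (w i)) (hc : ∀ i, HasCompactSupport (w i))
    (hG : ∀ v : Fin N → ℝ, ∫ x, (∑ i, v i * w i x) ^ 2 ≤ ∑ i, v i ^ 2)
    (hn : ∀ t : ℝ, ∃ φ : Fin n → (Fin m → ℝ) → ℝ, ∀ i, ∃ c : Fin n → ℝ, ∀ y,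
      w i (Fin.cons t y : Fin (m + 1) → ℝ) = ∑ a, c a * φ a y) :
    (∫ x, (∑ i, w i x ^ 2) ^ (1 + 2 / ((m + 1 : ℕ) : ℝ))) ^ (m + 1) ≤
      Ad (m + 1) * (n:ℝ) ^ 2 * ∏ k : Fin (m + 1), ∫ x, ∑ i, pd k (w i) x ^ 2 := by
  classical
  have hwc : ∀ i, Continuous (w i) := fun i => (hw i).continuous
  have hsq : ∀ {f : (Fin (m + 1) → ℝ) → ℝ}, HasCompactSupport f →
      HasCompactSupport fun z => f z ^ 2 := fun h =>
    h.comp_left (g := fun t : ℝ => t ^ 2) (by norm_num)
  have hpd : ∀ k i, Continuous (pd k (w i)) ∧ HasCompactSupport (pd k (w i)) := fun k i =>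
    pd_basic (hw i) (hc i) k
  have h := LTd.slice_sys w hw hc
  have hA := LTd.blockA h (LTd.PSD_one_sub_tot' w hwc hc hG)
  -- the density
  have hρ := sum_cs (fun i z => w i z ^ 2) (fun i => (hwc i).pow 2) (fun i => hsq (hc i))
  have hρ0 : ∀ z, 0 ≤ ∑ i, w i z ^ 2 := fun z => Finset.sum_nonneg fun i _ => sq_nonneg _
  set q : ℝ := 1 + 2 / ((m + 1 : ℕ) : ℝ) with hq
  have hq0 : 0 < q := by rw [hq]; positivity
  have hF := fun z => (Real.rpow_nonneg (hρ0 z) q)
  have hFc : Continuous fun z => (∑ i, w i z ^ 2) ^ q := hρ.1.rpow_const fun z => Or.inr hq0.le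
  have hFs : HasCompactSupport fun z => (∑ i, w i z ^ 2) ^ q :=
    hρ.2.comp_left (g := fun t : ℝ => t ^ q) (Real.zero_rpow hq0.ne')
  -- the kinetic energies
  have hT : ∀ k, Continuous (fun z => ∑ i, pd k (w i) z ^ 2) ∧
      HasCompactSupport (fun z => ∑ i, pd k (w i) z ^ 2) := fun k =>
    sum_cs (fun i z => pd k (w i) z ^ 2) (fun i => (hpd k i).1.pow 2) (fun i => hsq (hpd k i).2)
  have hT0 : ∀ k z, 0 ≤ ∑ i, pd k (w i) z ^ 2 := fun k z =>
    Finset.sum_nonneg fun i _ => sq_nonneg _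
  have hQ : ∫ x, (QS w x).trace = ∫ z, ∑ i, pd 0 (w i) z ^ 2 := by
    rw [slice_int (hT 0).1 (hT 0).2]
    refine integral_congr_ae (Eventually.of_forall fun x => ?_)
    show (QS w x).trace = ∫ y : Fin m → ℝ, ∑ i, pd 0 (w i) (Fin.cons x y : Fin (m + 1) → ℝ) ^ 2
    have h2 : ∀ i, Integrable (fun y : Fin m → ℝ =>
        pd 0 (w i) (Fin.cons x y : Fin (m + 1) → ℝ) ^ 2) := by
      intro i
      have h3 := slice_cont (f := fun z => pd 0 (w i) z ^ 2) ((hpd 0 i).1.pow 2)
        (hsq (hpd 0 i).2)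
      exact (h3.2.1 x).integrable_of_hasCompactSupport (h3.2.2.1 x)
    rw [integral_finsetSum _ fun i _ => h2 i, Matrix.trace]
    refine Finset.sum_congr rfl fun i _ => ?_
    rw [Matrix.diag_apply]
    show ∫ y : Fin m → ℝ, pd 0 (w i) (Fin.cons x y : Fin (m + 1) → ℝ) *
      pd 0 (w i) (Fin.cons x y : Fin (m + 1) → ℝ) = _
    congr 1
    funext y
    ring
  have htr : Integrable (fun x => (RS w x * RS w x * RS w x).trace) volume := by
    have hRc : ∀ i j, Continuous fun x => RS w x i j := fun i j =>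
      continuous_iff_continuousAt.2 fun x => (h.der x i j).continuousAt
    have hcont : Continuous fun x => (RS w x * RS w x * RS w x).trace := by
      have hR : Continuous fun x => RS w x := continuous_matrix hRc
      exact ((hR.matrix_mul hR).matrix_mul hR).matrix_trace
    obtain ⟨M, hM⟩ := h.supp
    refine hcont.integrable_of_hasCompactSupport ?_
    refine HasCompactSupport.intro (isCompact_Icc (a := -M) (b := M)) fun x hx => ?_
    have h2 : M < |x| := by
      by_contra hcon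
      push Not at hcon
      exact hx (abs_le.1 hcon)
    rw [(hM x h2).1]
    simp
  -- the slices
  have hsl : ∀ x, (0 ≤ (RS w x * RS w x * RS w x).trace) ∧
      (∫ y : Fin m → ℝ, ∑ i, w i (Fin.cons x y : Fin (m + 1) → ℝ) ^ 2) ^ 3 ≤
        (n:ℝ) ^ 2 * (RS w x * RS w x * RS w x).trace := by
    intro x
    obtain ⟨V, r, hV, hV', hr, hR⟩ := LTd.specP (LTd.sys_psd h x)
    have hint : ∀ i j, Integrable fun y : Fin m → ℝ =>
        w i (Fin.cons x y : Fin (m + 1) → ℝ) * w j (Fin.cons x y : Fin (m + 1) → ℝ) := by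
      intro i j
      have h3 := slice_cont (f := fun z => w i z * w j z) ((hwc i).mul (hwc j)) ((hc i).mul_right)
      exact (h3.2.1 x).integrable_of_hasCompactSupport (h3.2.2.1 x)
    obtain ⟨φ, hφ⟩ := hn x
    have hcard := count_eig (fun i y => w i (Fin.cons x y : Fin (m + 1) → ℝ)) hint φ hφ V r hV' hR
    have hcube := cube_sum r hr hcard
    have e3 : RS w x * RS w x * RS w x = V * Matrix.diagonal (fun i => r i ^ 3) * Vᵀ := by
      have e4 : ∀ X Y : Mat N, (V * X * Vᵀ) * (V * Y * Vᵀ) = V * (X * Y) * Vᵀ := by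
        intro X Y
        calc (V * X * Vᵀ) * (V * Y * Vᵀ) = V * X * (Vᵀ * V) * Y * Vᵀ := by
              simp only [Matrix.mul_assoc]
          _ = _ := by rw [hV', Matrix.mul_one]; simp only [Matrix.mul_assoc]
      rw [hR, e4, e4, Matrix.diagonal_mul_diagonal, Matrix.diagonal_mul_diagonal]
      congr 3
      funext i
      ring
    have e1 : (RS w x * RS w x * RS w x).trace = ∑ i, r i ^ 3 := by
      rw [e3, Matrix.trace_mul_comm, ← Matrix.mul_assoc, hV', Matrix.one_mul,
        Matrix.trace_diagonal]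
    have e2 : ∫ y : Fin m → ℝ, ∑ i, w i (Fin.cons x y : Fin (m + 1) → ℝ) ^ 2 = ∑ i, r i := by
      have h5 : (RS w x).trace = ∑ i, r i := by
        rw [hR, Matrix.trace_mul_comm, ← Matrix.mul_assoc, hV', Matrix.one_mul,
          Matrix.trace_diagonal]
      rw [← h5, integral_finsetSum _ fun i _ => by simpa only [sq] using hint i i, Matrix.trace]
      refine Finset.sum_congr rfl fun i _ => ?_
      rw [Matrix.diag_apply]
      show _ = ∫ y : Fin m → ℝ, w i (Fin.cons x y : Fin (m + 1) → ℝ) *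
        w i (Fin.cons x y : Fin (m + 1) → ℝ)
      congr 1
      funext y
      ring
    rw [e1, e2]
    exact ⟨Finset.sum_nonneg fun i _ => pow_nonneg (hr i) 3, hcube⟩
  have hC0 : 0 ≤ ∏ i ∈ Finset.range m, cj (1 + 1 + i) :=
    Finset.prod_nonneg fun i _ => cj_nonneg _
  have hslice : ∀ x, (∫ y : Fin m → ℝ,
      (∑ i, w i (Fin.cons x y : Fin (m + 1) → ℝ) ^ 2) ^ q) ^ (m + 1) ≤
      ((∏ i ∈ Finset.range m, cj (1 + 1 + i)) * (n:ℝ) ^ 2) *
        ((RS w x * RS w x * RS w x).trace) ^ 1 *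
        ∏ k : Fin m, ∫ y : Fin m → ℝ,
          ∑ i, pd k.succ (w i) (Fin.cons x y : Fin (m + 1) → ℝ) ^ 2 := by
    intro x
    have h1 := P_all (fun j hj => JJ_pos hj) m 1 (by omega) N
      (fun i y => w i (Fin.cons x y : Fin (m + 1) → ℝ))
      (fun i => (slice_pd (hw i) x).1) (fun i => (slice_cont (hwc i) (hc i)).2.2.1 x)
    simp only [(slice_pd (hw _) x).2] at h1
    refine h1.trans ?_
    rw [pow_one]
    have hTk : 0 ≤ ∏ k : Fin m, ∫ y : Fin m → ℝ,
        ∑ i, pd k.succ (w i) (Fin.cons x y : Fin (m + 1) → ℝ) ^ 2 :=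
      Finset.prod_nonneg fun k _ => integral_nonneg fun y => hT0 _ _
    refine mul_le_mul_of_nonneg_right ?_ hTk
    rw [mul_assoc]
    exact mul_le_mul_of_nonneg_left (hsl x).2 hC0
  have hH := holder_pow (m := m) (j := 1) (d := m + 1) rfl le_rfl
    ((∏ i ∈ Finset.range m, cj (1 + 1 + i)) * (n:ℝ) ^ 2) (mul_nonneg hC0 (sq_nonneg _))
    (fun x => ∫ y : Fin m → ℝ, (∑ i, w i (Fin.cons x y : Fin (m + 1) → ℝ) ^ 2) ^ q)
    (fun x => (RS w x * RS w x * RS w x).trace)
    (fun k x => ∫ y : Fin m → ℝ, ∑ i, pd k.succ (w i) (Fin.cons x y : Fin (m + 1) → ℝ) ^ 2)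
    (fun x => integral_nonneg fun y => hF _) (fun x => (hsl x).1)
    (fun k x => integral_nonneg fun y => hT0 _ _)
    (slice_integrable hFc hFs) htr (fun k => slice_integrable (hT _).1 (hT _).2) hslice
  rw [← slice_int hFc hFs] at hH
  simp only [← slice_int (hT _).1 (hT _).2] at hH
  refine hH.trans ?_
  rw [pow_one, Fin.prod_univ_succ, Ad, Finset.prod_range_succ']
  have hT1 : 0 ≤ ∏ k : Fin m, ∫ z, ∑ i, pd k.succ (w i) z ^ 2 :=
    Finset.prod_nonneg fun k _ => integral_nonneg fun z => hT0 _ _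
  have e1 : ∏ i ∈ Finset.range m, cj (1 + (i + 1)) = ∏ i ∈ Finset.range m, cj (1 + 1 + i) :=
    Finset.prod_congr rfl fun i _ => by congr 1; omega
  have e2 : cj (1 + 0) = 4 / π ^ 2 := by
    have hJ := JJ_eq (j := 1) le_rfl
    have h1 : ((1:ℕ):ℝ) / 2 + 1 = 3 / 2 := by norm_num
    have h2 : ((1:ℕ):ℝ) / 2 + 3 / 2 = 2 := by norm_num
    rw [h1, h2, Real.Gamma_two, div_one, Gamma_three_half] at hJ
    have hs : √π ^ 2 = π := Real.sq_sqrt Real.pi_pos.le
    rw [cj, show (1 + 0 : ℕ) = 1 by norm_num, hJ]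
    have h3 : (√π / 2 * (√π / 2)) ^ 2 = π ^ 2 / 16 := by
      have : √π / 2 * (√π / 2) = √π ^ 2 / 4 := by ring
      rw [this, hs]; ring
    rw [h3]
    norm_num
    field_simp
    norm_num
  have hI3 : ∫ x, (RS w x * RS w x * RS w x).trace ≤
      4 / π ^ 2 * ∫ z, ∑ i, pd 0 (w i) z ^ 2 := by
    rw [hQ] at hA
    have hπ : 0 < π := Real.pi_pos
    rw [div_mul_eq_mul_div, le_div_iff₀ (by positivity)]
    linarith
  rw [e1, e2]
  calc (∏ i ∈ Finset.range m, cj (1 + 1 + i)) * (n:ℝ) ^ 2 *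
        (∫ x, (RS w x * RS w x * RS w x).trace) *
        ∏ k : Fin m, ∫ z, ∑ i, pd k.succ (w i) z ^ 2 ≤
      (∏ i ∈ Finset.range m, cj (1 + 1 + i)) * (n:ℝ) ^ 2 *
        (4 / π ^ 2 * ∫ z, ∑ i, pd 0 (w i) z ^ 2) *
        ∏ k : Fin m, ∫ z, ∑ i, pd k.succ (w i) z ^ 2 :=
        mul_le_mul_of_nonneg_right (mul_le_mul_of_nonneg_left hI3
          (mul_nonneg hC0 (sq_nonneg _))) hT1
    _ = _ := by ring

end Pool.Agent.N674.LT
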