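import Mathlib
import Pool.Agent.N674.LT.Modes
import Pool.Agent.Helper717.LT.P_T_succ
import Pool.Agent.Helper717.LT.P_const_final

set_option autoImplicit false

/-!
# The kinetic inequality for systems with few transversal modes, several longitudinal dimensions
-/

open MeasureTheory Set Filter Topology Real
open LTd (pd slice_der slice_int slice_cont slice_pd pd_basic Mat RS SS QS bco pp Tot Kcl)
open scoped Matrix

namespace Pool.Agent.N674.LT

/-- at most `n` transversal modes (`m` transversal and `k` longitudinal dimensions) -/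
def Modes (n m : ℕ) : (k : ℕ) → {N : ℕ} → (Fin N → (Fin (m + k) → ℝ) → ℝ) → Prop
  | 0, _, w => ∃ φ : Fin n → (Fin m → ℝ) → ℝ, ∀ i, ∃ c : Fin n → ℝ, ∀ y, w i y = ∑ a, c a * φ a y
  | k + 1, _, w => ∀ t : ℝ, Modes n m k fun i (y : Fin (m + k) → ℝ) =>
      w i (Fin.cons t y : Fin (m + k + 1) → ℝ)

theorem Modes.rot {n m : ℕ} : ∀ (k : ℕ) {N : ℕ} {w : Fin N → (Fin (m + k) → ℝ) → ℝ} (V : Mat N),
    Modes n m k w → Modes n m k fun i y => ∑ j, V j i * w j y
  | 0, N, w, V, h => by
    obtain ⟨φ, hφ⟩ := h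
    choose c hc using hφ
    refine ⟨φ, fun i => ⟨fun a => ∑ j, V j i * c j a, fun y => ?_⟩⟩
    simp only [hc]
    rw [Finset.sum_congr rfl fun j _ => Finset.mul_sum _ _ _, Finset.sum_comm]
    refine Finset.sum_congr rfl fun a _ => ?_
    rw [Finset.sum_mul]
    exact Finset.sum_congr rfl fun j _ => by ring
  | k + 1, N, w, V, h => fun t => Modes.rot k V (h t)

/-- the inequality with the factor `s` -/
def TS (n m k : ℕ) (s g : ℝ) : Prop :=
  ∀ (a : ℝ), 0 < a → ∀ (N : ℕ) (w : Fin N → (Fin (m + k) → ℝ) → ℝ) (l : Fin N → ℝ),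
    (∀ i, ContDiff ℝ 1 (w i)) → (∀ i, HasCompactSupport (w i)) →
    (∀ i j, ∫ x, w i x * w j x = if i = j then l i else 0) → Modes n m k w →
    s * (bco (((m + k : ℕ) : ℝ) / 2) g a *
      ∫ x, (∑ i, w i x ^ 2) ^ pp (g + ((m + k : ℕ) : ℝ) / 2)) ≤
      (∫ x, ∑ k, ∑ i, pd k (w i) x ^ 2) + a * ∑ i, l i ^ pp g

theorem TS_slice {n m k : ℕ} {s g a : ℝ} (ha : 0 < a) (hT : TS n m k s g) {N : ℕ}
    (w : Fin N → (Fin (m + k) → ℝ) → ℝ) (hw : ∀ i, ContDiff ℝ 1 (w i))
    (hc : ∀ i, HasCompactSupport (w i)) (hmod : Modes n m k w) (V : Mat N) (r : Fin N → ℝ)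
    (hV : V * Vᵀ = 1) (hV' : Vᵀ * V = 1)
    (hR : (Matrix.of fun i j => ∫ x, w i x * w j x : Mat N) = V * Matrix.diagonal r * Vᵀ) :
    s * (bco (((m + k : ℕ) : ℝ) / 2) g a *
      ∫ x, (∑ i, w i x ^ 2) ^ pp (g + ((m + k : ℕ) : ℝ) / 2)) ≤
      (∫ x, ∑ k, ∑ i, pd k (w i) x ^ 2) + a * ∑ i, r i ^ pp g := by
  have h1 := hT a ha N (fun i x => ∑ j, V j i * w j x) r
    (fun i => ContDiff.sum fun j _ => contDiff_const.mul (hw j)) (by
      intro i
      apply HasCompactSupport.intro (K := ⋃ j, tsupport (w j)) (isCompact_iUnion fun j => hc j)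
      intro x hx
      rw [Set.mem_iUnion, not_exists] at hx
      apply Finset.sum_eq_zero
      intro j _
      rw [image_eq_zero_of_notMem_tsupport (hx j), mul_zero]) (by
      intro i j
      have hint : ∀ p q : Fin N, Integrable (fun x => w p x * w q x) := by
        intro p q
        apply Continuous.integrable_of_hasCompactSupport
        · exact (hw p).continuous.mul (hw q).continuous
        · exact (hc p).mul_right
      have h2 : (fun x => (∑ p, V p i * w p x) * (∑ q, V q j * w q x)) =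
          fun x => ∑ p, ∑ q, (V p i * V q j) * (w p x * w q x) := by
        funext x
        rw [Finset.sum_mul_sum]
        apply Finset.sum_congr rfl
        intro p _
        apply Finset.sum_congr rfl
        intro q _
        ring
      show ∫ x, (∑ p, V p i * w p x) * (∑ q, V q j * w q x) = _
      rw [h2, integral_finsetSum]
      · have h3 : ∀ p ∈ (Finset.univ : Finset (Fin N)),
            ∫ x, ∑ q, (V p i * V q j) * (w p x * w q x) =
            ∑ q, (V p i * V q j) * (Matrix.of fun i j => ∫ x, w i x * w j x : Mat N) p q := by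
          intro p _
          rw [integral_finsetSum]
          · apply Finset.sum_congr rfl
            intro q _
            rw [integral_const_mul]
            rfl
          · intro q _
            exact (hint p q).const_mul _
        rw [Finset.sum_congr rfl h3, hR]
        have h4 : Vᵀ * (V * Matrix.diagonal r * Vᵀ) * V = Matrix.diagonal r := by
          rw [← Matrix.mul_assoc, ← Matrix.mul_assoc, hV', Matrix.one_mul, Matrix.mul_assoc, hV',
            Matrix.mul_one]
        have h5 : (Vᵀ * (V * Matrix.diagonal r * Vᵀ) * V) i j =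
            ∑ p, ∑ q, (V p i * V q j) * (V * Matrix.diagonal r * Vᵀ) p q := by
          rw [Matrix.mul_apply, Finset.sum_comm]
          apply Finset.sum_congr rfl
          intro q _
          rw [Matrix.mul_apply, Finset.sum_mul]
          apply Finset.sum_congr rfl
          intro p _
          rw [Matrix.transpose_apply]
          ring
        rw [← h5, h4, Matrix.diagonal_apply]
      · intro p _
        apply integrable_finsetSum
        intro q _
        exact (hint p q).const_mul _) (Modes.rot k V hmod)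
  have h2 : ∀ x, ∑ i, (∑ j, V j i * w j x) ^ 2 = ∑ i, w i x ^ 2 := fun x => LTd.tsl_rot V hV _
  have h3 : ∀ x, ∑ k, ∑ i, pd k (fun y => ∑ j, V j i * w j y) x ^ 2 =
      ∑ k, ∑ i, pd k (w i) x ^ 2 := by
    intro x
    apply Finset.sum_congr rfl
    intro k _
    rw [← LTd.tsl_rot V hV (fun j => pd k (w j) x)]
    apply Finset.sum_congr rfl
    intro i _
    rw [LTd.pd_sum w hw (fun j => V j i) k x]
  simp only [h2, h3] at h1
  exact h1

theorem trQ {m N : ℕ} (w : Fin N → (Fin (m + 1) → ℝ) → ℝ) (hw : ∀ i, ContDiff ℝ 1 (w i))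
    (hc : ∀ i, HasCompactSupport (w i)) :
    ∫ x, (QS w x).trace = ∫ z, ∑ i, pd 0 (w i) z ^ 2 := by
  have hsqc : ∀ (i : Fin N), Continuous (fun z => pd 0 (w i) z ^ 2) :=
    fun i => (pd_basic (hw i) (hc i) 0).1.pow 2
  have hsqs : ∀ (i : Fin N), HasCompactSupport (fun z => pd 0 (w i) z ^ 2) :=
    fun i => (pd_basic (hw i) (hc i) 0).2.comp_left (g := fun t : ℝ => t ^ 2) (by norm_num)
  rw [integral_finsetSum _ (fun i _ => (hsqc i).integrable_of_hasCompactSupport (hsqs i))]
  have h4 : ∀ x, (QS w x).trace = ∑ i, ∫ y : Fin m → ℝ,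
      pd 0 (w i) (Fin.cons x y : Fin (m + 1) → ℝ) ^ 2 := by
    intro x
    unfold Matrix.trace
    refine Finset.sum_congr rfl fun i _ => ?_
    simp only [QS, Matrix.diag_apply, Matrix.of_apply, ← sq]
  simp_rw [h4]
  rw [integral_finsetSum _ (fun i _ => LTd.ts_slice_integrable (hsqc i) (hsqs i))]
  refine Finset.sum_congr rfl fun i _ => ?_
  exact (slice_int (hsqc i) (hsqs i)).symm

theorem TS_succ {n m k : ℕ} {s g : ℝ} (hg : 3 / 2 ≤ g) (hT : TS n m k s (g + 1 / 2)) :
    TS n m (k + 1) s g := by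
  intro a ha N w l hw hc hgram hmod
  have hwc : ∀ i, Continuous (w i) := fun i => (hw i).continuous
  have hm0 : (0 : ℝ) ≤ ((m + k : ℕ) : ℝ) := Nat.cast_nonneg _
  have hsys := LTd.slice_sys (m := m + k) w hw hc
  have hcw2 : ∀ i j, HasCompactSupport (fun z => w i z * w j z) := fun i j =>
    (hc i).mul_right (f' := w j)
  have hTot : Tot (RS (m := m + k) w) = Matrix.diagonal l := by
    ext i j
    have h1 : ∫ z, w i z * w j z = ∫ x : ℝ, ∫ y : Fin (m + k) → ℝ,
        w i (Fin.cons x y : Fin (m + k + 1) → ℝ) * w j (Fin.cons x y : Fin (m + k + 1) → ℝ) :=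
      slice_int (f := fun z => w i z * w j z) ((hwc i).mul (hwc j)) (hcw2 i j)
    rw [hgram i j] at h1
    rw [Matrix.diagonal_apply]
    exact h1.symm
  obtain ⟨G, hGc, hGs, hG1, hG2⟩ := LTd.blockC hsys l hTot hg ha
  have ha' : 0 < bco (1 / 2) g a := LTd.bco_pos (by norm_num) (by linarith) ha
  have hpd : ∀ (q : Fin (m + k + 1)) (i : Fin N), Continuous (pd q (w i)) ∧
      HasCompactSupport (pd q (w i)) := fun q i => pd_basic (hw i) (hc i) q
  have hsqc : ∀ (q : Fin (m + k + 1)) (i : Fin N), Continuous (fun z => pd q (w i) z ^ 2) :=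
    fun q i => (hpd q i).1.pow 2
  have hsqs : ∀ (q : Fin (m + k + 1)) (i : Fin N), HasCompactSupport (fun z => pd q (w i) z ^ 2) :=
    fun q i => (hpd q i).2.comp_left (g := fun t : ℝ => t ^ 2) (by norm_num)
  have hsqi : ∀ (q : Fin (m + k + 1)) (i : Fin N), Integrable (fun z => pd q (w i) z ^ 2) :=
    fun q i => (hsqc q i).integrable_of_hasCompactSupport (hsqs q i)
  -- the exponent
  have hpp : 0 < pp (g + 1 / 2 + ((m + k : ℕ) : ℝ) / 2) := by
    unfold pp
    apply div_pos <;> linarith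
  have hexp : g + 1 / 2 + ((m + k : ℕ) : ℝ) / 2 = g + ((m + (k + 1) : ℕ) : ℝ) / 2 := by
    push_cast
    ring
  -- the density
  have hρc : Continuous (fun z => (∑ i, w i z ^ 2) ^ pp (g + 1 / 2 + ((m + k : ℕ) : ℝ) / 2)) :=
    (continuous_finsetSum _ fun i _ => (hwc i).pow 2).rpow_const (fun _ => Or.inr hpp.le)
  have hρs : HasCompactSupport
      (fun z => (∑ i, w i z ^ 2) ^ pp (g + 1 / 2 + ((m + k : ℕ) : ℝ) / 2)) := by
    refine HasCompactSupport.intro (isCompact_iUnion (fun i => hc i)) (fun z hz => ?_)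
    have h0 : ∀ i, w i z = 0 := fun i =>
      image_eq_zero_of_notMem_tsupport (fun h => hz (Set.mem_iUnion.2 ⟨i, h⟩))
    have h00 : ∑ i, w i z ^ 2 = 0 := by simp [h0]
    show (∑ i, w i z ^ 2) ^ pp (g + 1 / 2 + ((m + k : ℕ) : ℝ) / 2) = 0
    rw [h00, Real.zero_rpow hpp.ne']
  -- the gradient part
  have hDc : Continuous (fun z => ∑ q : Fin (m + k), ∑ i, pd q.succ (w i) z ^ 2) :=
    continuous_finsetSum _ fun q _ => continuous_finsetSum _ fun i _ => hsqc q.succ i
  have hDs : HasCompactSupport (fun z => ∑ q : Fin (m + k), ∑ i, pd q.succ (w i) z ^ 2) := by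
    refine HasCompactSupport.intro (isCompact_iUnion (fun q : Fin (m + k) =>
      isCompact_iUnion (fun i : Fin N => (hsqs q.succ i)))) (fun z hz => ?_)
    have h0 : ∀ (q : Fin (m + k)) (i : Fin N), pd q.succ (w i) z ^ 2 = 0 := fun q i =>
      image_eq_zero_of_notMem_tsupport (f := fun z => pd q.succ (w i) z ^ 2)
        (fun h => hz (Set.mem_iUnion.2 ⟨q, Set.mem_iUnion.2 ⟨i, h⟩⟩))
    simp only [h0]
    simp
  -- pointwise inequality
  have hpoint : ∀ x : ℝ, s * bco (((m + (k + 1) : ℕ) : ℝ) / 2) g a *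
      (∫ y : Fin (m + k) → ℝ, (∑ i, w i (Fin.cons x y : Fin (m + k + 1) → ℝ) ^ 2) ^
        pp (g + 1 / 2 + ((m + k : ℕ) : ℝ) / 2)) ≤
      (∫ y : Fin (m + k) → ℝ,
        ∑ q : Fin (m + k), ∑ i, pd q.succ (w i) (Fin.cons x y : Fin (m + k + 1) → ℝ) ^ 2) +
        G x := by
    intro x
    obtain ⟨V, r, hV, hV', hr, hR⟩ := LTd.specP (LTd.sys_psd hsys x)
    have h1 := TS_slice ha' hT
      (fun i (y : Fin (m + k) → ℝ) => w i (Fin.cons x y : Fin (m + k + 1) → ℝ))
      (fun i => (slice_pd (hw i) x).1) (fun i => (slice_cont (hwc i) (hc i)).2.2.1 x)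
      (hmod x) V r hV hV' hR
    have h2 := hG1 x V r hV hV' hr hR
    have h3 : ∀ (q : Fin (m + k)) (i : Fin N) (y : Fin (m + k) → ℝ),
        pd q (fun y : Fin (m + k) → ℝ => w i (Fin.cons x y : Fin (m + k + 1) → ℝ)) y =
          pd q.succ (w i) (Fin.cons x y : Fin (m + k + 1) → ℝ) := fun q i y =>
      (slice_pd (hw i) x).2 q y
    simp only [h3] at h1
    rw [LTd.bco_succ (m + k) hg ha] at h1
    have h4 : ((m + k + 1 : ℕ) : ℝ) = ((m + (k + 1) : ℕ) : ℝ) := rfl
    rw [h4, ← mul_assoc] at h1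
    linarith
  -- integrate
  have hint := integral_mono
    ((LTd.ts_slice_integrable hρc hρs).const_mul (s * bco (((m + (k + 1) : ℕ) : ℝ) / 2) g a))
    ((LTd.ts_slice_integrable hDc hDs).add (hGc.integrable_of_hasCompactSupport hGs)) hpoint
  rw [integral_const_mul, ← slice_int hρc hρs] at hint
  have hadd : ∫ x : ℝ, ((fun x : ℝ => ∫ y : Fin (m + k) → ℝ,
      ∑ q : Fin (m + k), ∑ i, pd q.succ (w i) (Fin.cons x y : Fin (m + k + 1) → ℝ) ^ 2) + G) x =
      (∫ z, ∑ q : Fin (m + k), ∑ i, pd q.succ (w i) z ^ 2) + ∫ x, G x := by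
    rw [slice_int hDc hDs]
    exact integral_add (LTd.ts_slice_integrable hDc hDs) (hGc.integrable_of_hasCompactSupport hGs)
  have htr : ∫ x, (QS (m := m + k) w x).trace =
      ∫ z : Fin (m + k + 1) → ℝ, ∑ i, pd 0 (w i) z ^ 2 := trQ (m := m + k) w hw hc
  have hsplit : ∫ z, ∑ q : Fin (m + k + 1), ∑ i, pd q (w i) z ^ 2 =
      (∫ z : Fin (m + k + 1) → ℝ, ∑ i, pd 0 (w i) z ^ 2) +
        ∫ z, ∑ q : Fin (m + k), ∑ i, pd q.succ (w i) z ^ 2 := by
    simp_rw [Fin.sum_univ_succ]
    exact integral_add (integrable_finsetSum _ fun i _ => hsqi 0 i)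
      (hDc.integrable_of_hasCompactSupport hDs)
  rw [← hexp, ← mul_assoc]
  have hsplit' : ∫ z, ∑ q : Fin (m + (k + 1)), ∑ i, pd q (w i) z ^ 2 =
      (∫ z : Fin (m + k + 1) → ℝ, ∑ i, pd 0 (w i) z ^ 2) +
        ∫ z, ∑ q : Fin (m + k), ∑ i, pd q.succ (w i) z ^ 2 := hsplit
  rw [hsplit']
  rw [htr] at hG2
  have hint' : s * bco (((m + (k + 1) : ℕ) : ℝ) / 2) g a *
      (∫ z, (∑ i, w i z ^ 2) ^ pp (g + 1 / 2 + ((m + k : ℕ) : ℝ) / 2)) ≤
      (∫ z, ∑ q : Fin (m + k), ∑ i, pd q.succ (w i) z ^ 2) + ∫ x, G x := hint.trans (le_of_eq hadd)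
  refine le_trans hint' ?_
  linarith

/-- the last step -/
theorem coreS {n m k : ℕ} {s : ℝ} (hT : TS n m k s (3 / 2)) {N : ℕ}
    (w : Fin N → (Fin (m + k + 1) → ℝ) → ℝ) (hw : ∀ i, ContDiff ℝ 1 (w i))
    (hc : ∀ i, HasCompactSupport (w i))
    (hG : ∀ v : Fin N → ℝ, ∫ x, (∑ i, v i * w i x) ^ 2 ≤ ∑ i, v i ^ 2)
    (hmod : Modes n m (k + 1) w) :
    s * (bco (((m + k : ℕ) : ℝ) / 2) (3 / 2) (π ^ 2 / 4) *
      ∫ x, (∑ i, w i x ^ 2) ^ pp (3 / 2 + ((m + k : ℕ) : ℝ) / 2)) ≤
      ∫ x, ∑ q, ∑ i, pd q (w i) x ^ 2 := by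
  classical
  have hwc : ∀ i, Continuous (w i) := fun i => (hw i).continuous
  have h := LTd.slice_sys (m := m + k) w hw hc
  have hA := LTd.blockA h (LTd.PSD_one_sub_tot' w hwc hc hG)
  set p : ℝ := pp (3 / 2 + ((m + k : ℕ) : ℝ) / 2) with hp
  have hp0 : 0 < p := by
    rw [hp, pp]
    have hm : (0 : ℝ) ≤ ((m + k : ℕ) : ℝ) := Nat.cast_nonneg _
    apply div_pos <;> linarith
  -- the density
  set F : (Fin (m + k + 1) → ℝ) → ℝ := fun z => (∑ i, w i z ^ 2) ^ p with hF
  have hFc : Continuous F := by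
    refine Continuous.rpow_const ?_ fun z => Or.inr hp0.le
    exact continuous_finsetSum _ fun i _ => (hwc i).pow 2
  have hFs : HasCompactSupport F := by
    refine LTd.cs_fam' w hc F fun z hz => ?_
    show (∑ i, w i z ^ 2) ^ p = 0
    rw [Finset.sum_eq_zero fun i _ => by rw [hz i]; norm_num]
    exact Real.zero_rpow hp0.ne'
  -- the tangential derivatives
  set D : (Fin (m + k + 1) → ℝ) → ℝ := fun z => ∑ q : Fin (m + k), ∑ i, pd q.succ (w i) z ^ 2
    with hD
  have hDc : Continuous D := by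
    refine continuous_finsetSum _ fun q _ => continuous_finsetSum _ fun i _ => ?_
    exact ((pd_basic (hw i) (hc i) q.succ).1).pow 2
  have hDs : HasCompactSupport D := by
    refine LTd.cs_fam' (ι := Fin (m + k) × Fin N) (fun q => pd q.1.succ (w q.2))
      (fun q => (pd_basic (hw q.2) (hc q.2) q.1.succ).2) D fun z hz => ?_
    refine Finset.sum_eq_zero fun q _ => Finset.sum_eq_zero fun i _ => ?_
    rw [hz (q, i)]
    norm_num
  -- the normal derivatives
  set E : (Fin (m + k + 1) → ℝ) → ℝ := fun z => ∑ i, pd 0 (w i) z ^ 2 with hE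
  have hEc : Continuous E := by
    refine continuous_finsetSum _ fun i _ => ?_
    exact ((pd_basic (hw i) (hc i) 0).1).pow 2
  have hEs : HasCompactSupport E := by
    refine LTd.cs_fam' (fun i => pd 0 (w i)) (fun i => (pd_basic (hw i) (hc i) 0).2) E
      fun z hz => ?_
    refine Finset.sum_eq_zero fun i _ => ?_
    rw [hz i]
    norm_num
  have hQ : ∫ x, (QS (m := m + k) w x).trace = ∫ z, E z := by
    rw [slice_int hEc hEs]
    refine integral_congr_ae (Eventually.of_forall fun x => ?_)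
    show (QS (m := m + k) w x).trace =
      ∫ y : Fin (m + k) → ℝ, E (Fin.cons x y : Fin (m + k + 1) → ℝ)
    have h2 : ∀ i, Integrable (fun y : Fin (m + k) → ℝ =>
        pd 0 (w i) (Fin.cons x y : Fin (m + k + 1) → ℝ) ^ 2) volume := by
      intro i
      have h3 := slice_cont (f := fun z => pd 0 (w i) z ^ 2)
        (((pd_basic (hw i) (hc i) 0).1).pow 2)
        (LTd.cs_fam' (ι := Unit) (fun _ => pd 0 (w i)) (fun _ => (pd_basic (hw i) (hc i) 0).2) _
          fun z hz => by rw [hz ()]; norm_num)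
      exact (h3.2.1 x).integrable_of_hasCompactSupport (h3.2.2.1 x)
    rw [hE]
    dsimp only
    rw [integral_finsetSum _ fun i _ => h2 i, Matrix.trace]
    refine Finset.sum_congr rfl fun i _ => ?_
    rw [Matrix.diag_apply]
    show ∫ y : Fin (m + k) → ℝ, pd 0 (w i) (Fin.cons x y : Fin (m + k + 1) → ℝ) *
      pd 0 (w i) (Fin.cons x y : Fin (m + k + 1) → ℝ) = _
    congr 1
    funext y
    ring
  have htr : Integrable (fun x => (RS (m := m + k) w x * RS (m := m + k) w x *
      RS (m := m + k) w x).trace) volume := by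
    have hRc : ∀ i j, Continuous fun x => RS (m := m + k) w x i j := fun i j =>
      continuous_iff_continuousAt.2 fun x => (h.der x i j).continuousAt
    have hcont : Continuous fun x => (RS (m := m + k) w x * RS (m := m + k) w x *
        RS (m := m + k) w x).trace := by
      have hR : Continuous fun x => RS (m := m + k) w x := continuous_matrix hRc
      exact ((hR.matrix_mul hR).matrix_mul hR).matrix_trace
    obtain ⟨M, hM⟩ := h.supp
    refine hcont.integrable_of_hasCompactSupport ?_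
    refine HasCompactSupport.intro (isCompact_Icc (a := -M) (b := M)) fun x hx => ?_
    have h2 : M < |x| := by
      by_contra hcon
      push Not at hcon
      exact hx (abs_le.1 hcon)
    rw [(hM x h2).1]
    simp
  -- the slices
  have hslice : ∀ x : ℝ, s * bco (((m + k : ℕ) : ℝ) / 2) (3 / 2) (π ^ 2 / 4) *
      ∫ y : Fin (m + k) → ℝ, F (Fin.cons x y : Fin (m + k + 1) → ℝ) ≤
      (∫ y : Fin (m + k) → ℝ, D (Fin.cons x y : Fin (m + k + 1) → ℝ)) +
        π ^ 2 / 4 * (RS (m := m + k) w x * RS (m := m + k) w x * RS (m := m + k) w x).trace := by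
    intro x
    obtain ⟨V, r, hV, hV', hr, hR⟩ := LTd.specP (LTd.sys_psd h x)
    have h1 := TS_slice (a := π ^ 2 / 4) (by positivity)
      hT (fun i (y : Fin (m + k) → ℝ) => w i (Fin.cons x y : Fin (m + k + 1) → ℝ))
      (fun i => (slice_pd (hw i) x).1) (fun i => (slice_cont (hwc i) (hc i)).2.2.1 x)
      (hmod x) V r hV hV' hR
    have e1 : ∑ i, r i ^ pp (3 / 2) =
        (RS (m := m + k) w x * RS (m := m + k) w x * RS (m := m + k) w x).trace := by
      have e2 : pp (3 / 2) = ((3 : ℕ) : ℝ) := by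
        rw [pp]
        norm_num
      have e3 : RS (m := m + k) w x * RS (m := m + k) w x * RS (m := m + k) w x =
          V * Matrix.diagonal (fun i => r i ^ 3) * Vᵀ := by
        have e4 : ∀ X Y : Mat N, (V * X * Vᵀ) * (V * Y * Vᵀ) = V * (X * Y) * Vᵀ := by
          intro X Y
          calc (V * X * Vᵀ) * (V * Y * Vᵀ) = V * X * (Vᵀ * V) * Y * Vᵀ := by
                simp only [Matrix.mul_assoc]
            _ = _ := by rw [hV', Matrix.mul_one]; simp only [Matrix.mul_assoc]
        rw [hR, e4, e4, Matrix.diagonal_mul_diagonal, Matrix.diagonal_mul_diagonal]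
        congr 3
        funext i
        ring
      rw [e3, Matrix.trace_mul_comm, ← Matrix.mul_assoc, hV', Matrix.one_mul,
        Matrix.trace_diagonal]
      refine Finset.sum_congr rfl fun i _ => ?_
      rw [e2, Real.rpow_natCast]
    rw [e1, ← mul_assoc] at h1
    have e5 : ∀ y : Fin (m + k) → ℝ, (∑ q, ∑ i, pd q (fun y : Fin (m + k) → ℝ =>
        w i (Fin.cons x y : Fin (m + k + 1) → ℝ)) y ^ 2) =
          D (Fin.cons x y : Fin (m + k + 1) → ℝ) := by
      intro y
      refine Finset.sum_congr rfl fun q _ => Finset.sum_congr rfl fun i _ => ?_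
      rw [(slice_pd (hw i) x).2 q y]
    rw [integral_congr_ae (Eventually.of_forall e5)] at h1
    exact h1
  have hint := integral_mono ((LTd.slice_integrable' hFc hFs).const_mul _)
    ((LTd.slice_integrable' hDc hDs).add (htr.const_mul _)) hslice
  rw [integral_const_mul, ← slice_int hFc hFs] at hint
  have hsum : ∫ x, ((∫ y : Fin (m + k) → ℝ, D (Fin.cons x y : Fin (m + k + 1) → ℝ)) +
        π ^ 2 / 4 * (RS (m := m + k) w x * RS (m := m + k) w x *
          RS (m := m + k) w x).trace) =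
      (∫ z, D z) + π ^ 2 / 4 * ∫ x, (RS (m := m + k) w x * RS (m := m + k) w x *
        RS (m := m + k) w x).trace := by
    rw [integral_add (LTd.slice_integrable' hDc hDs) (htr.const_mul _), integral_const_mul,
      ← slice_int hDc hDs]
  have hfin : ∫ x, ∑ q, ∑ i, pd q (w i) x ^ 2 = (∫ z, E z) + ∫ z, D z := by
    rw [← integral_add (hEc.integrable_of_hasCompactSupport hEs)
      (hDc.integrable_of_hasCompactSupport hDs)]
    refine integral_congr_ae (Eventually.of_forall fun z => ?_)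
    show ∑ q, ∑ i, pd q (w i) z ^ 2 = (∑ i, pd 0 (w i) z ^ 2) +
      ∑ q : Fin (m + k), ∑ i, pd q.succ (w i) z ^ 2
    rw [Fin.sum_univ_succ]
  rw [hfin, ← mul_assoc]
  have hint' := hint.trans_eq hsum
  rw [hQ] at hA
  refine le_trans hint' ?_
  linarith

end Pool.Agent.N674.LT
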