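import Mathlib
import Pool.Agent.N674.LT.General
import Pool.Agent.Helper717.LT.P_final_thm

set_option autoImplicit false

/-!
# The kinetic inequality for systems with few transversal modes: the base case and the conclusion
-/

open MeasureTheory Set Filter Topology Real
open LTd (pd slice_der slice_int slice_cont slice_pd pd_basic Mat RS SS QS bco pp cc Tot Kcl)
open scoped Matrix

namespace Pool.Agent.N674.LT

theorem cc_gamma {x : ℝ} (hx : 0 < x) :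
    cc (1 + x) * Gamma (1 + x + 1) = (x / (1 + x)) ^ x * Gamma (1 + x) := by
  have h1 : (0:ℝ) < 1 + x := by linarith
  rw [Real.Gamma_add_one h1.ne', cc, show 1 + x - 1 = x by ring, Real.div_rpow hx.le h1.le,
    Real.rpow_add h1, Real.rpow_one]
  have h2 : 0 < (1 + x) ^ x := Real.rpow_pos_of_pos h1 _
  field_simp

theorem JJ_sq (m : ℕ) {K : ℕ} (hK : 1 ≤ K) :
    LTd.JJ ((m:ℝ) / 2) (1 + (K:ℝ) / 2) ^ 2 * Kcl K ^ K = Kcl (m + K) ^ (m + K) := by
  have hK0 : (0:ℝ) < K := by exact_mod_cast hK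
  have hπ : 0 < π := Real.pi_pos
  have hd0 : (0:ℝ) < ((m + K : ℕ) : ℝ) := by positivity
  set d : ℕ := m + K with hd
  have e1 : (1 + (K:ℝ) / 2) + (m:ℝ) / 2 = 1 + (d:ℝ) / 2 := by rw [hd]; push_cast; ring
  have e2 : (1 + (K:ℝ) / 2) + 1 + (m:ℝ) / 2 = 1 + (d:ℝ) / 2 + 1 := by rw [hd]; push_cast; ring
  have hJ : LTd.JJ ((m:ℝ) / 2) (1 + (K:ℝ) / 2) =
      (4 * π) ^ ((m:ℝ) / 2) * ((((d:ℝ) / 2) / (1 + (d:ℝ) / 2)) ^ ((d:ℝ) / 2) *
        Gamma (1 + (d:ℝ) / 2)) / ((((K:ℝ) / 2) / (1 + (K:ℝ) / 2)) ^ ((K:ℝ) / 2) *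
        Gamma (1 + (K:ℝ) / 2)) := by
    rw [← cc_gamma (show 0 < (d:ℝ) / 2 by positivity), ← cc_gamma (show 0 < (K:ℝ) / 2 by positivity),
      LTd.JJ, e1, e2]
    ring
  have hsq : ∀ x : ℕ, 1 ≤ x → ((((x:ℝ) / 2) / (1 + (x:ℝ) / 2)) ^ ((x:ℝ) / 2)) ^ 2 =
      (x:ℝ) ^ x / ((x:ℝ) + 2) ^ x := by
    intro x hx
    have hx0 : (0:ℝ) < x := by exact_mod_cast hx
    have h1 : ((x:ℝ) / 2) / (1 + (x:ℝ) / 2) = (x:ℝ) / ((x:ℝ) + 2) := by field_simp; ring
    rw [h1, ← Real.rpow_natCast _ 2, ← Real.rpow_mul (by positivity),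
      show (x:ℝ) / 2 * ((2:ℕ):ℝ) = (x:ℝ) by push_cast; ring, Real.rpow_natCast, div_pow]
  have h4 : ((4 * π) ^ ((m:ℝ) / 2)) ^ 2 = (4 * π) ^ m := by
    rw [← Real.rpow_natCast _ 2, ← Real.rpow_mul (by positivity),
      show (m:ℝ) / 2 * ((2:ℕ):ℝ) = (m:ℝ) by push_cast; ring, Real.rpow_natCast]
  have hG1 := Real.Gamma_pos_of_pos (show 0 < 1 + (d:ℝ) / 2 by positivity)
  have hG2 := Real.Gamma_pos_of_pos (show 0 < 1 + (K:ℝ) / 2 by positivity)
  rw [hJ, div_pow, mul_pow, mul_pow, mul_pow, hsq d (by omega), hsq K hK, h4, Kcl_pow hK,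
    Kcl_pow (show 1 ≤ d by omega), add_comm ((d:ℝ) / 2) 1, add_comm ((K:ℝ) / 2) 1]
  have h5 : (4 * π) ^ d = (4 * π) ^ m * (4 * π) ^ K := by rw [hd, pow_add]
  rw [h5]
  have h6 : (0:ℝ) < (K:ℝ) ^ K := by positivity
  field_simp

theorem power_mean {ι : Type*} [Fintype ι] (l : ι → ℝ) (hl : ∀ i, 0 ≤ l i) {n K : ℕ}
    (hK : 1 ≤ K) (hn : (Finset.univ.filter fun i => l i ≠ 0).card ≤ n) :
    (∑ i, l i) ^ (K + 2) ≤ (n:ℝ) ^ 2 * (∑ i, l i ^ (1 + 2 / (K:ℝ))) ^ K := by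
  classical
  have hK0 : (0:ℝ) < K := by exact_mod_cast hK
  set p : ℝ := 1 + 2 / (K:ℝ) with hp
  have hp0 : 0 < p := by rw [hp]; positivity
  set s := Finset.univ.filter fun i => l i ≠ 0 with hs
  have h1 : ∑ i, l i = ∑ i ∈ s, l i := by
    rw [hs, Finset.sum_filter]
    exact Finset.sum_congr rfl fun i _ => by split_ifs with h <;> simp_all
  have h2 : ∑ i ∈ s, l i ^ p ≤ ∑ i, l i ^ p :=
    Finset.sum_le_univ_sum_of_nonneg fun i => Real.rpow_nonneg (hl i) _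
  have h2' : 0 ≤ ∑ i ∈ s, l i ^ p := Finset.sum_nonneg fun i _ => Real.rpow_nonneg (hl i) _
  rcases s.eq_empty_or_nonempty with he | hne
  · rw [h1, he, Finset.sum_empty, zero_pow (by omega)]
    have : 0 ≤ ∑ i, l i ^ p := Finset.sum_nonneg fun i _ => Real.rpow_nonneg (hl i) _
    positivity
  · have hc : (0:ℝ) < (s.card : ℝ) := by exact_mod_cast Finset.card_pos.2 hne
    have hJ := Real.rpow_arith_mean_le_arith_mean_rpow s (fun _ => 1 / (s.card : ℝ)) l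
      (fun i _ => by positivity) (by
        rw [Finset.sum_const, nsmul_eq_mul]; field_simp) (fun i _ => hl i)
      (p := p) (by rw [hp]; linarith [show (0:ℝ) ≤ 2 / (K:ℝ) by positivity])
    rw [← Finset.mul_sum, ← Finset.mul_sum] at hJ
    have hA0 : 0 ≤ ∑ i ∈ s, l i := Finset.sum_nonneg fun i _ => hl i
    have h3 := pow_le_pow_left₀ (Real.rpow_nonneg (by positivity) _) hJ K
    rw [← Real.rpow_natCast ((1 / (s.card : ℝ) * ∑ i ∈ s, l i) ^ p),
      ← Real.rpow_mul (by positivity)] at h3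
    have e1 : p * (K:ℝ) = ((K + 2 : ℕ) : ℝ) := by rw [hp]; push_cast; field_simp
    rw [e1, Real.rpow_natCast, mul_pow, mul_pow, div_pow, div_pow, one_pow, one_pow] at h3
    have h4 : (∑ i ∈ s, l i) ^ (K + 2) ≤ (s.card : ℝ) ^ 2 * (∑ i ∈ s, l i ^ p) ^ K := by
      have h5 : (s.card : ℝ) ^ (K + 2) = (s.card : ℝ) ^ K * (s.card : ℝ) ^ 2 := pow_add _ _ _
      rw [h5] at h3
      have h6 : 0 < (s.card : ℝ) ^ K := by positivity
      rw [div_mul_eq_mul_div, div_mul_eq_mul_div, one_mul, one_mul,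
        div_le_div_iff₀ (by positivity) h6] at h3
      refine le_of_mul_le_mul_right ?_ h6
      linarith
    rw [h1]
    refine h4.trans ?_
    have h7 : (s.card : ℝ) ^ 2 ≤ (n:ℝ) ^ 2 := pow_le_pow_left₀ hc.le (by exact_mod_cast hn) 2
    exact mul_le_mul h7 (pow_le_pow_left₀ h2' h2 K) (pow_nonneg h2' K) (sq_nonneg _)

/-- the base case -/
theorem base_real {n m K : ℕ} (hK : 1 ≤ K) {s : ℝ} (hs0 : 0 ≤ s)
    (hs : s ^ (m + K) * (ad K * (n:ℝ) ^ 2) ≤ ad (m + K)) {a : ℝ} (ha : 0 < a) {N : ℕ}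
    (w : Fin N → (Fin m → ℝ) → ℝ) (l : Fin N → ℝ) (hw : ∀ i, ContDiff ℝ 1 (w i))
    (hc : ∀ i, HasCompactSupport (w i))
    (hgram : ∀ i j, ∫ x, w i x * w j x = if i = j then l i else 0)
    (hmod : ∃ φ : Fin n → (Fin m → ℝ) → ℝ, ∀ i, ∃ c : Fin n → ℝ, ∀ y, w i y = ∑ a, c a * φ a y) :
    s * (bco ((m:ℝ) / 2) (1 + (K:ℝ) / 2) a *
      ∫ x, (∑ i, w i x ^ 2) ^ (1 + 2 / ((m + K : ℕ):ℝ))) ≤
      (∫ x, ∑ q, ∑ i, pd q (w i) x ^ 2) + a * ∑ i, l i ^ (1 + 2 / (K:ℝ)) := by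
  have hwc : ∀ i, Continuous (w i) := fun i => (hw i).continuous
  have hK0 : (0:ℝ) < K := by exact_mod_cast hK
  set d : ℕ := m + K with hd
  have hd1 : 1 ≤ d := by omega
  have hd0 : (0:ℝ) < (d:ℝ) := by exact_mod_cast hd1
  have hint : ∀ i j, Integrable fun y => w i y * w j y := fun i j =>
    ((hwc i).mul (hwc j)).integrable_of_hasCompactSupport ((hc i).mul_right)
  have hl : ∀ i, 0 ≤ l i := by
    intro i
    have h1 := hgram i i
    rw [if_pos rfl] at h1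
    rw [← h1]
    exact integral_nonneg fun x => mul_self_nonneg _
  -- the number of nonzero functions
  obtain ⟨φ, hφ⟩ := hmod
  have hcard := count_eig w hint φ hφ 1 l (by simp) (by
    rw [Matrix.one_mul, Matrix.transpose_one, Matrix.mul_one]
    ext i j
    rw [Matrix.of_apply, Matrix.diagonal_apply]
    exact hgram i j)
  have hpm := power_mean l hl hK hcard
  have hP := P_all (fun j hj => JJ_pos hj) m K (by omega) N w hw hc
  have hsum : ∫ x, ∑ i, w i x ^ 2 = ∑ i, l i := by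
    rw [integral_finsetSum _ fun i _ => by simpa only [sq] using hint i i]
    refine Finset.sum_congr rfl fun i _ => ?_
    have h1 := hgram i i
    rw [if_pos rfl] at h1
    rw [← h1]
    congr 1
    funext x
    ring
  rw [hsum] at hP
  have hpd : ∀ q i, Continuous (pd q (w i)) ∧ HasCompactSupport (pd q (w i)) := fun q i =>
    pd_basic (hw i) (hc i) q
  have hsq : ∀ {f : (Fin m → ℝ) → ℝ}, HasCompactSupport f →
      HasCompactSupport fun z => f z ^ 2 := fun h =>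
    h.comp_left (g := fun t : ℝ => t ^ 2) (by norm_num)
  have hTi : ∀ q, Integrable (fun z => ∑ i, pd q (w i) z ^ 2) := fun q => by
    have := sum_cs (fun i z => pd q (w i) z ^ 2) (fun i => (hpd q i).1.pow 2)
      (fun i => hsq (hpd q i).2)
    exact this.1.integrable_of_hasCompactSupport this.2
  have hT0 : ∀ q, 0 ≤ ∫ z, ∑ i, pd q (w i) z ^ 2 := fun q =>
    integral_nonneg fun z => Finset.sum_nonneg fun i _ => sq_nonneg _
  rw [integral_finsetSum _ fun q _ => hTi q]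
  set T : Fin m → ℝ := fun q => ∫ z, ∑ i, pd q (w i) z ^ 2 with hTdef
  set L : ℝ := ∑ i, l i ^ (1 + 2 / (K:ℝ)) with hL
  have hL0 : 0 ≤ L := Finset.sum_nonneg fun i _ => Real.rpow_nonneg (hl i) _
  set I : ℝ := ∫ x : Fin m → ℝ, (∑ i, w i x ^ 2) ^ (1 + 2 / (d:ℝ)) with hI
  have hI0 : 0 ≤ I := integral_nonneg fun x => Real.rpow_nonneg
    (Finset.sum_nonneg fun i _ => sq_nonneg _) _
  set J : ℝ := LTd.JJ ((m:ℝ) / 2) (1 + (K:ℝ) / 2) with hJ
  have hJ0 : 0 < J := LTd.bco_succ_JJ_pos (by positivity)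
    (by linarith [show (0:ℝ) < (K:ℝ) / 2 by positivity])
  set b : ℝ := bco ((m:ℝ) / 2) (1 + (K:ℝ) / 2) a with hb
  have hbpow : b ^ d = J ^ 2 * a ^ K := by
    have hX : 0 < J * a ^ ((K:ℝ) / 2) := mul_pos hJ0 (Real.rpow_pos_of_pos ha _)
    rw [hb, bco, ← hJ, show 1 + (K:ℝ) / 2 - 1 = (K:ℝ) / 2 by ring,
      show 1 + (K:ℝ) / 2 + (m:ℝ) / 2 - 1 = (d:ℝ) / 2 by rw [hd]; push_cast; ring,
      ← Real.rpow_natCast _ d, ← Real.rpow_mul hX.le,
      show 1 / ((d:ℝ) / 2) * (d:ℝ) = ((2:ℕ):ℝ) by push_cast; field_simp, Real.rpow_natCast,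
      mul_pow, ← Real.rpow_natCast (a ^ _) 2, ← Real.rpow_mul ha.le,
      show (K:ℝ) / 2 * ((2:ℕ):ℝ) = (K:ℝ) by push_cast; ring, Real.rpow_natCast]
  have hb0 : 0 ≤ b := (LTd.bco_pos (by positivity)
    (by linarith [show (0:ℝ) < (K:ℝ) / 2 by positivity]) ha).le
  -- the product of the constants
  set C : ℝ := ∏ i ∈ Finset.range m, cj (K + 1 + i) with hC
  have hC0 : 0 ≤ C := Finset.prod_nonneg fun i _ => cj_nonneg _
  have hAd : Ad d = Ad K * C := by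
    unfold Ad
    rw [hd, add_comm m K, Finset.prod_range_add]
    congr 1
    exact Finset.prod_congr rfl fun i _ => by congr 1; omega
  have hAK : 0 < Ad K := by
    have h1 := key_const hK
    rcases (Ad_nonneg K).eq_or_lt with h | h
    · have h2 : (0:ℝ) < (K:ℝ) ^ K := by positivity
      rw [← h, mul_zero, zero_mul] at h1
      exact absurd h1 h2.ne
    · exact h
  have hkey : ad d * (J ^ 2 * C) * (K:ℝ) ^ K = ad K * (d:ℝ) ^ d := by
    have h1 := key_const hK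
    have h2 := key_const hd1
    have h3 := JJ_sq m hK
    rw [← hJ, ← hd] at h3
    rw [hAd, ← h3] at h2
    have hkK : 0 < Kcl K ^ K := pow_pos (Kcl_pos hK) _
    rw [← h1, ← h2]
    ring
  have hadK := ad_pos K
  -- the main chain
  have hTT : 0 ≤ ∏ q, T q := Finset.prod_nonneg fun q _ => hT0 q
  have h1 : (s * (b * I)) ^ d ≤ (d:ℝ) ^ d * ((a * L / K) ^ K * ∏ q, T q) := by
    calc (s * (b * I)) ^ d = s ^ d * (J ^ 2 * a ^ K) * I ^ d := by
          rw [mul_pow, mul_pow, hbpow]; ring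
      _ ≤ s ^ d * (J ^ 2 * a ^ K) * (C * ((n:ℝ) ^ 2 * L ^ K) * ∏ q, T q) := by
          refine mul_le_mul_of_nonneg_left (hP.trans ?_) (by positivity)
          exact mul_le_mul_of_nonneg_right (mul_le_mul_of_nonneg_left hpm hC0) hTT
      _ = (s ^ d * (ad K * (n:ℝ) ^ 2)) * ((J ^ 2 * C) * (a * L) ^ K * (∏ q, T q) / ad K) := by
          rw [mul_pow]
          field_simp
      _ ≤ ad d * ((J ^ 2 * C) * (a * L) ^ K * (∏ q, T q) / ad K) :=
          mul_le_mul_of_nonneg_right hs (by positivity)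
      _ = (ad d * (J ^ 2 * C) * (K:ℝ) ^ K) * ((a * L / K) ^ K * ∏ q, T q) / ad K := by
          rw [div_pow]
          field_simp
      _ = (d:ℝ) ^ d * ((a * L / K) ^ K * ∏ q, T q) := by
          rw [hkey]
          field_simp
  have h2 : (a * L / K) ^ K * ∏ q, T q ≤ ((∑ q, T q + a * L) / d) ^ d := by
    have h3 := prod_le (d := m + K) hd1 (Fin.append T fun _ => a * L / K) (by
      intro i
      refine Fin.addCases (fun i => ?_) (fun i => ?_) i
      · rw [Fin.append_left]; exact hT0 i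
      · rw [Fin.append_right]; positivity)
    rw [Fin.prod_univ_add, Fin.sum_univ_add] at h3
    simp only [Fin.append_left, Fin.append_right, Finset.prod_const, Finset.sum_const,
      Finset.card_univ, Fintype.card_fin, nsmul_eq_mul] at h3
    rw [mul_div_cancel₀ _ hK0.ne'] at h3
    rw [mul_comm]
    exact h3
  have h4 : (s * (b * I)) ^ d ≤ (∑ q, T q + a * L) ^ d := by
    refine h1.trans ((mul_le_mul_of_nonneg_left h2 (by positivity)).trans (le_of_eq ?_))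
    rw [← mul_pow, mul_div_cancel₀ _ hd0.ne']
  have h5 : 0 ≤ ∑ q, T q + a * L :=
    add_nonneg (Finset.sum_nonneg fun q _ => hT0 q) (mul_nonneg ha.le hL0)
  exact le_of_pow_le_pow_left₀ (by omega) h5 h4

theorem TS_base {n m K : ℕ} (hK : 1 ≤ K) {s : ℝ} (hs0 : 0 ≤ s)
    (hs : s ^ (m + K) * (ad K * (n:ℝ) ^ 2) ≤ ad (m + K)) : TS n m 0 s (1 + (K:ℝ) / 2) := by
  intro a ha N w l hw hc hgram hmod
  have hK0 : (0:ℝ) < K := by exact_mod_cast hK
  have hd0 : (0:ℝ) < ((m + K : ℕ) : ℝ) := by positivity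
  -- exponents
  have hpp1 : pp (1 + (K:ℝ) / 2) = 1 + 2 / (K:ℝ) := by
    unfold pp
    have h1 : 1 + (K:ℝ) / 2 - 1 = (K:ℝ) / 2 := by ring
    rw [h1]
    field_simp
    ring
  have hpp2 : pp (1 + (K:ℝ) / 2 + ((m + 0 : ℕ) : ℝ) / 2) = 1 + 2 / ((m + K : ℕ) : ℝ) := by
    unfold pp
    have h1 : 1 + (K:ℝ) / 2 + ((m + 0 : ℕ) : ℝ) / 2 = 1 + ((m + K : ℕ) : ℝ) / 2 := by
      push_cast; ring
    rw [h1, show 1 + ((m + K : ℕ) : ℝ) / 2 - 1 = ((m + K : ℕ) : ℝ) / 2 by ring]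
    field_simp
    ring
  rw [hpp1, hpp2]
  exact base_real hK hs0 hs ha w l hw hc hgram hmod

theorem TS_all {n m K : ℕ} {s : ℝ} (h : TS n m 0 s (1 + ((K + 1 : ℕ):ℝ) / 2)) (k : ℕ)
    (hk : k ≤ K) : TS n m k s (1 + ((K + 1 - k : ℕ):ℝ) / 2) := by
  induction k with
  | zero => simpa using h
  | succ k ih =>
    have h1 := ih (by omega)
    refine TS_succ ?_ ?_
    · have : (1:ℝ) ≤ ((K + 1 - (k + 1) : ℕ):ℝ) := by
        have : 1 ≤ K + 1 - (k + 1) := by omega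
        exact_mod_cast this
      linarith
    · have h2 : (1 + ((K + 1 - (k + 1) : ℕ):ℝ) / 2) + 1 / 2 = 1 + ((K + 1 - k : ℕ):ℝ) / 2 := by
        have h3 : K + 1 - k = (K + 1 - (k + 1)) + 1 := by omega
        rw [h3]
        push_cast
        ring
      rw [h2]
      exact h1

/-- **The inequality for arbitrarily many real functions with few transversal modes.** -/
theorem modes_general {n m K : ℕ} {σ : ℝ} (hσ : 0 ≤ σ)
    (hs : 4 * (σ ^ (m + K + 1) * (ad (K + 1) * (n:ℝ) ^ 2)) ≤ 3 * ad (m + K + 1)) {N : ℕ}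
    (w : Fin N → (Fin (m + K + 1) → ℝ) → ℝ) (hw : ∀ i, ContDiff ℝ 1 (w i))
    (hc : ∀ i, HasCompactSupport (w i))
    (hG : ∀ v : Fin N → ℝ, ∫ x, (∑ i, v i * w i x) ^ 2 ≤ ∑ i, v i ^ 2)
    (hmod : Modes n m (K + 1) w) :
    σ * Kcl (m + K + 1) * ∫ x, (∑ i, w i x ^ 2) ^ (1 + 2 / ((m + K + 1 : ℕ) : ℝ)) ≤
      ∫ x, ∑ q, ∑ i, pd q (w i) x ^ 2 := by
  have hd0 : (0:ℝ) < ((m + K + 1 : ℕ) : ℝ) := by positivity
  set t : ℝ := (3 / 4 : ℝ) ^ (1 / ((m + K + 1 : ℕ) : ℝ)) with ht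
  have ht0 : 0 < t := Real.rpow_pos_of_pos (by norm_num) _
  have htp : t ^ (m + K + 1) = 3 / 4 := by
    rw [ht, ← Real.rpow_natCast, ← Real.rpow_mul (by norm_num), one_div_mul_cancel hd0.ne',
      Real.rpow_one]
  have h1 : TS n m 0 (σ / t) (1 + ((K + 1 : ℕ):ℝ) / 2) := by
    refine TS_base (by omega) (by positivity) ?_
    have h2 : (σ / t) ^ (m + (K + 1)) = σ ^ (m + K + 1) / (3 / 4) := by
      rw [← htp, ← div_pow]
      congr 1
    rw [h2]
    have h3 : ad (m + (K + 1)) = ad (m + K + 1) := rfl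
    rw [h3]
    linarith
  have h2 := TS_all h1 K le_rfl
  have h3 : 1 + ((K + 1 - K : ℕ):ℝ) / 2 = 3 / 2 := by
    rw [show K + 1 - K = 1 by omega]; norm_num
  rw [h3] at h2
  have h4 := coreS h2 w hw hc hG hmod
  have h5 := LTd.final_thm_pp (m + K)
  rw [h5, LTd.const_final (m + K)] at h4
  have h6 : ((m + K : ℕ) : ℝ) + 1 = ((m + K + 1 : ℕ) : ℝ) := by push_cast; ring
  rw [h6, ← ht] at h4
  refine le_trans (le_of_eq ?_) h4
  field_simp

end Pool.Agent.N674.LT
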