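import Mathlib
import Pool.Agent.N674.LT.Const

set_option autoImplicit false

/-!
# The kinetic inequality for systems with few functions at every point
-/

open MeasureTheory Set Filter Topology Real
open LTd (Kcl WGradC)

namespace Pool.Agent.N674.LT

/-- the lower bound for the one-particle constant -/
noncomputable def kap (d : ℕ) : ℝ := Nd d ^ (2 / (d:ℝ)) * Kcl d

theorem kap_pos {d : ℕ} (hd : 1 ≤ d) : 0 < kap d :=
  mul_pos (Real.rpow_pos_of_pos (Nd_pos d) _) (Kcl_pos hd)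

theorem kap_pow {d : ℕ} (hd : 1 ≤ d) : kap d ^ d * Ad d = (d:ℝ) ^ d := by
  have hd0 : (0:ℝ) < d := by exact_mod_cast hd
  rw [kap, mul_pow, ← Real.rpow_natCast (Nd d ^ _), ← Real.rpow_mul (Nd_pos d).le,
    div_mul_cancel₀ _ hd0.ne', Real.rpow_ofNat, Nd_sq, ← key_const hd]
  ring

/-- total mass `M > 0` -/
theorem total_mass {d : ℕ} (hd : 1 ≤ d) {N : ℕ} (u : Fin N → (Fin d → ℝ) → ℂ)
    (g : Fin N → Fin d → (Fin d → ℝ) → ℂ) (hu : ∀ i, WGradC (u i) (g i)) {M : ℝ} (hM : 0 < M)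
    (ho : ∑ i, ∫ x, ‖u i x‖ ^ 2 ≤ M) :
    Integrable (fun x => (∑ i, ‖u i x‖ ^ 2) ^ (1 + 2 / (d:ℝ))) ∧
    kap d * ∫ x, (∑ i, ‖u i x‖ ^ 2) ^ (1 + 2 / (d:ℝ)) ≤
      M ^ (2 / (d:ℝ)) * ∑ i, ∑ k, ∫ x, ‖g i k x‖ ^ 2 := by
  have hd0 : (0:ℝ) < d := by exact_mod_cast hd
  have hMp : 0 < M ^ (2 / (d:ℝ)) := Real.rpow_pos_of_pos hM _
  have h := complex1 hd u g hu ho (K := kap d / M ^ (2 / (d:ℝ))) (div_pos (kap_pos hd) hMp) (by
    rw [div_pow, ← Real.rpow_natCast (M ^ _), ← Real.rpow_mul hM.le, div_mul_cancel₀ _ hd0.ne',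
      Real.rpow_ofNat, div_mul_eq_mul_div, div_mul_cancel₀ _ (by positivity), kap_pow hd])
  refine ⟨h.1, ?_⟩
  have h2 := h.2
  rw [div_mul_eq_mul_div, div_le_iff₀ hMp] at h2
  linarith

/-- the inequality for one function -/
theorem one_function {d : ℕ} (hd : 1 ≤ d) (u : (Fin d → ℝ) → ℂ)
    (g : Fin d → (Fin d → ℝ) → ℂ) (hu : WGradC u g) :
    Integrable (fun x => (‖u x‖ ^ 2) ^ (1 + 2 / (d:ℝ))) ∧
    kap d * ∫ x, (‖u x‖ ^ 2) ^ (1 + 2 / (d:ℝ)) ≤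
      (∫ x, ‖u x‖ ^ 2) ^ (2 / (d:ℝ)) * ∑ k, ∫ x, ‖g k x‖ ^ 2 := by
  have hd0 : (0:ℝ) < d := by exact_mod_cast hd
  have hm0 : 0 ≤ ∫ x, ‖u x‖ ^ 2 := integral_nonneg fun x => sq_nonneg _
  have hi : Integrable (fun x => ‖u x‖ ^ 2) := hu.f2.integrable_norm_pow two_ne_zero
  rcases hm0.eq_or_lt with hm | hm
  · have hz : ∀ᵐ x, ‖u x‖ ^ 2 = 0 := by
      have := (integral_eq_zero_iff_of_nonneg (fun x => sq_nonneg _) hi).1 hm.symm
      exact this
    have hz2 : (fun x => (‖u x‖ ^ 2) ^ (1 + 2 / (d:ℝ))) =ᵐ[volume] fun _ => (0:ℝ) := by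
      filter_upwards [hz] with x hx
      rw [hx, Real.zero_rpow (by positivity)]
    refine ⟨(integrable_congr hz2).2 (integrable_zero _ _ _), ?_⟩
    rw [integral_congr_ae hz2, integral_zero, mul_zero, ← hm, Real.zero_rpow (by positivity),
      zero_mul]
  · have h := total_mass hd (N := 1) (fun _ => u) (fun _ => g) (fun _ => hu) hm (by simp)
    simpa using h

/-- **The kinetic inequality with local masses.** -/
theorem local_mass {d : ℕ} (hd : 1 ≤ d) {N : ℕ} (u : Fin N → (Fin d → ℝ) → ℂ)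
    (g : Fin N → Fin d → (Fin d → ℝ) → ℂ) (hu : ∀ i, WGradC (u i) (g i)) {μ : ℝ} (hμ0 : 0 ≤ μ)
    (hμ : ∀ᵐ x, (∑ i, if u i x = 0 then 0 else ∫ y, ‖u i y‖ ^ 2) ≤ μ) :
    Integrable (fun x => (∑ i, ‖u i x‖ ^ 2) ^ (1 + 2 / (d:ℝ))) ∧
    kap d * ∫ x, (∑ i, ‖u i x‖ ^ 2) ^ (1 + 2 / (d:ℝ)) ≤
      μ ^ (2 / (d:ℝ)) * ∑ i, ∑ k, ∫ x, ‖g i k x‖ ^ 2 := by
  classical
  have hd0 : (0:ℝ) < d := by exact_mod_cast hd
  set p : ℝ := 1 + 2 / (d:ℝ) with hp
  have hp1 : 1 ≤ p := by rw [hp]; linarith [show (0:ℝ) ≤ 2 / (d:ℝ) by positivity]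
  have hp0 : 0 < p := by linarith
  have hi : ∀ i, Integrable (fun x => ‖u i x‖ ^ 2) := fun i =>
    (hu i).f2.integrable_norm_pow two_ne_zero
  set m : Fin N → ℝ := fun i => ∫ y, ‖u i y‖ ^ 2 with hm
  have hm0 : ∀ i, 0 ≤ m i := fun i => integral_nonneg fun x => sq_nonneg _
  have hone := fun i => one_function hd (u i) (g i) (hu i)
  have hI : Integrable (fun x => (∑ i, ‖u i x‖ ^ 2) ^ p) := by
    have hs0 : 0 ≤ ∑ i, m i := Finset.sum_nonneg fun i _ => hm0 i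
    exact (total_mass hd u g hu (M := ∑ i, m i + 1) (by linarith)
      (by show ∑ i, m i ≤ _; linarith)).1
  refine ⟨hI, ?_⟩
  have hz : ∀ᵐ x, ∀ i, m i = 0 → u i x = 0 := by
    rw [ae_all_iff]
    intro i
    by_cases h : m i = 0
    · have h1 := (integral_eq_zero_iff_of_nonneg (fun x => sq_nonneg _) (hi i)).1 h
      filter_upwards [h1] with x hx _
      have h2 : ‖u i x‖ ^ 2 = 0 := hx
      exact norm_eq_zero.1 (pow_eq_zero_iff two_ne_zero |>.1 h2)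
    · exact Eventually.of_forall fun x hx => absurd hx h
  -- the pointwise inequality
  have hpt : ∀ᵐ x, (∑ i, ‖u i x‖ ^ 2) ^ p ≤
      μ ^ (2 / (d:ℝ)) * ∑ i, m i ^ (-(2 / (d:ℝ))) * (‖u i x‖ ^ 2) ^ p := by
    filter_upwards [hμ, hz] with x hx1 hx2
    set A : Finset (Fin N) := Finset.univ.filter fun i => u i x ≠ 0 with hA
    have hsum : ∀ f : Fin N → ℝ, (∀ i, u i x = 0 → f i = 0) → ∑ i, f i = ∑ i ∈ A, f i := by
      intro f hf
      rw [hA, Finset.sum_filter]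
      refine Finset.sum_congr rfl fun i _ => ?_
      split_ifs with h
      · rfl
      · exact hf i (not_not.1 h)
    have hmA : ∀ i ∈ A, 0 < m i := by
      intro i hi'
      rw [hA, Finset.mem_filter] at hi'
      rcases (hm0 i).eq_or_lt with h | h
      · exact absurd (hx2 i h.symm) hi'.2
      · exact h
    rw [hsum (fun i => ‖u i x‖ ^ 2) (fun i h => by simp [h]),
      hsum (fun i => m i ^ (-(2 / (d:ℝ))) * (‖u i x‖ ^ 2) ^ p) (fun i h => by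
        rw [h, norm_zero]; simp [Real.zero_rpow hp0.ne'])]
    rw [hsum (fun i => if u i x = 0 then 0 else m i) (fun i h => by simp [h])] at hx1
    have hx1' : ∑ i ∈ A, m i ≤ μ := by
      refine le_trans (le_of_eq ?_) hx1
      refine Finset.sum_congr rfl fun i hi' => ?_
      rw [hA, Finset.mem_filter] at hi'
      rw [if_neg hi'.2]
    rcases A.eq_empty_or_nonempty with hAe | hAn
    · rw [hAe, Finset.sum_empty, Finset.sum_empty, Real.zero_rpow hp0.ne', mul_zero]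
    set s : ℝ := ∑ i ∈ A, m i with hs
    have hs0 : 0 < s := Finset.sum_pos hmA hAn
    have hJ := Real.rpow_arith_mean_le_arith_mean_rpow A (fun i => m i / s)
      (fun i => ‖u i x‖ ^ 2 / m i) (fun i hi' => div_nonneg (hm0 i) hs0.le)
      (by rw [← Finset.sum_div, div_self hs0.ne']) (fun i hi' => by have := hm0 i; positivity) hp1
    have e1 : ∑ i ∈ A, m i / s * (‖u i x‖ ^ 2 / m i) = (∑ i ∈ A, ‖u i x‖ ^ 2) / s := by
      rw [Finset.sum_div]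
      refine Finset.sum_congr rfl fun i hi' => ?_
      have := hmA i hi'
      field_simp
    have e2 : ∑ i ∈ A, m i / s * (‖u i x‖ ^ 2 / m i) ^ p =
        (∑ i ∈ A, m i ^ (-(2 / (d:ℝ))) * (‖u i x‖ ^ 2) ^ p) / s := by
      rw [Finset.sum_div]
      refine Finset.sum_congr rfl fun i hi' => ?_
      have h1 := hmA i hi'
      rw [Real.div_rpow (sq_nonneg _) h1.le, hp, Real.rpow_neg h1.le, Real.rpow_add h1,
        Real.rpow_one]
      have h2 : 0 < m i ^ (2 / (d:ℝ)) := Real.rpow_pos_of_pos h1 _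
      field_simp
    rw [e1, e2, Real.div_rpow (Finset.sum_nonneg fun i _ => sq_nonneg _) hs0.le,
      div_le_div_iff₀ (Real.rpow_pos_of_pos hs0 _) hs0, hp, Real.rpow_add hs0, Real.rpow_one] at hJ
    have h3 : (∑ i ∈ A, ‖u i x‖ ^ 2) ^ p ≤
        s ^ (2 / (d:ℝ)) * ∑ i ∈ A, m i ^ (-(2 / (d:ℝ))) * (‖u i x‖ ^ 2) ^ p := by
      refine le_of_mul_le_mul_right ?_ hs0
      rw [hp]
      linarith
    refine h3.trans (mul_le_mul_of_nonneg_right (Real.rpow_le_rpow hs0.le hx1' (by positivity))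
      (Finset.sum_nonneg fun i _ => mul_nonneg (Real.rpow_nonneg (hm0 i) _)
        (Real.rpow_nonneg (sq_nonneg _) _)))
  -- integrate
  have hint : Integrable fun x => μ ^ (2 / (d:ℝ)) * ∑ i, m i ^ (-(2 / (d:ℝ))) *
      (‖u i x‖ ^ 2) ^ p :=
    (integrable_finsetSum _ fun i _ => (hone i).1.const_mul _).const_mul _
  have h1 := integral_mono_ae hI hint hpt
  rw [integral_const_mul, integral_finsetSum _ fun i _ => (hone i).1.const_mul _] at h1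
  have h2 : kap d * ∑ i, ∫ x, m i ^ (-(2 / (d:ℝ))) * (‖u i x‖ ^ 2) ^ p ≤
      ∑ i, ∑ k, ∫ x, ‖g i k x‖ ^ 2 := by
    rw [Finset.mul_sum]
    refine Finset.sum_le_sum fun i _ => ?_
    rw [integral_const_mul]
    have hT : 0 ≤ ∑ k, ∫ x, ‖g i k x‖ ^ 2 :=
      Finset.sum_nonneg fun k _ => integral_nonneg fun x => sq_nonneg _
    rcases (hm0 i).eq_or_lt with h | h
    · rw [← h, Real.rpow_neg le_rfl, Real.zero_rpow (by positivity), inv_zero, zero_mul, mul_zero]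
      exact hT
    · have h3 := (hone i).2
      have h4 : 0 < m i ^ (2 / (d:ℝ)) := Real.rpow_pos_of_pos h _
      rw [Real.rpow_neg h.le]
      calc kap d * ((m i ^ (2 / (d:ℝ)))⁻¹ * ∫ x, (‖u i x‖ ^ 2) ^ p) =
          (m i ^ (2 / (d:ℝ)))⁻¹ * (kap d * ∫ x, (‖u i x‖ ^ 2) ^ p) := by ring
        _ ≤ (m i ^ (2 / (d:ℝ)))⁻¹ * (m i ^ (2 / (d:ℝ)) * ∑ k, ∫ x, ‖g i k x‖ ^ 2) :=
          mul_le_mul_of_nonneg_left h3 (by positivity)
        _ = ∑ k, ∫ x, ‖g i k x‖ ^ 2 := by rw [← mul_assoc, inv_mul_cancel₀ h4.ne', one_mul]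
  calc kap d * ∫ x, (∑ i, ‖u i x‖ ^ 2) ^ p ≤
      kap d * (μ ^ (2 / (d:ℝ)) * ∑ i, ∫ x, m i ^ (-(2 / (d:ℝ))) * (‖u i x‖ ^ 2) ^ p) :=
        mul_le_mul_of_nonneg_left h1 (kap_pos hd).le
    _ = μ ^ (2 / (d:ℝ)) * (kap d * ∑ i, ∫ x, m i ^ (-(2 / (d:ℝ))) * (‖u i x‖ ^ 2) ^ p) := by ring
    _ ≤ _ := mul_le_mul_of_nonneg_left h2 (Real.rpow_nonneg hμ0 _)

end Pool.Agent.N674.LT
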