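import Pool.Agent.H632.LTD2
import Pool.Agent.N674.LT.Local

set_option autoImplicit false

/-!
# From the kinetic inequality to the energies in a potential
-/

open MeasureTheory Set Filter Topology Real
open scoped ENNReal
open LTd (Kcl)

namespace Pool.Agent.N674.LT

theorem young_cl {d : ℕ} (hd : 1 ≤ d) {σ a ρ : ℝ} (hσ : 0 < σ) (ha : 0 ≤ a) (hρ : 0 ≤ ρ) :
    a * ρ ≤ σ * Kcl d * ρ ^ (1 + 2 / (d:ℝ)) +
      σ ^ (-((d:ℝ) / 2)) * Pool.H632.LTD.Lcl 1 d * a ^ (1 + (d:ℝ) / 2) := by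
  have hd0 : (0:ℝ) < d := by exact_mod_cast hd
  obtain ⟨c, hc⟩ : ∃ c, c = σ * (4 / 3 : ℝ) ^ (1 / (d:ℝ)) := ⟨_, rfl⟩
  have hKK := Pool.H632.LTD.KK_pos d hd
  have hc0 : 0 < c := by
    rw [hc]
    positivity
  have hKeq : Kcl d = LTd.Kcl d := rfl
  have h34 : (0:ℝ) < 3 / 4 := by norm_num
  have h1 := Pool.H632.LTD.young d hd (a := a / c) (ρ := ρ) (by positivity) hρ
  have h2 := mul_le_mul_of_nonneg_left h1 hc0.le
  have e1 : c * (a / c * ρ) = a * ρ := by field_simp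
  have e2 : c * Pool.H632.LTD.KK d = σ * Kcl d := by
    rw [hc, Pool.H632.LTD.KK, hKeq, show (4 / 3 : ℝ) = (3 / 4)⁻¹ by norm_num, Real.inv_rpow h34.le]
    have h2 : 0 < (3 / 4 : ℝ) ^ (1 / (d:ℝ)) := by positivity
    field_simp
  have e0 : c ^ (-((d:ℝ) / 2)) * Pool.H632.LTD.L1 d = σ ^ (-((d:ℝ) / 2)) * Pool.H632.LTD.Lcl 1 d := by
    rw [hc, Real.mul_rpow hσ.le (by positivity), ← Real.rpow_mul (by norm_num : (0:ℝ) ≤ 4 / 3),
      Pool.H632.LTD.L1_eq d hd]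
    have e3 : 1 / (d:ℝ) * -((d:ℝ) / 2) = -(1 / 2) := by field_simp
    have e4 : (4 / 3 : ℝ) ^ (-(1 / 2) : ℝ) = √3 / 2 := by
      rw [Real.rpow_neg (by norm_num), ← Real.sqrt_eq_rpow, Real.sqrt_div (by norm_num),
        show (4:ℝ) = 2 ^ 2 by norm_num, Real.sqrt_sq (by norm_num), inv_div]
    rw [e3, e4]
    have h3 : 0 < √3 := Real.sqrt_pos.2 (by norm_num)
    field_simp
  have e3 : c * (Pool.H632.LTD.L1 d * (a / c) ^ (1 + (d:ℝ) / 2)) =
      σ ^ (-((d:ℝ) / 2)) * Pool.H632.LTD.Lcl 1 d * a ^ (1 + (d:ℝ) / 2) := by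
    rw [← e0, Real.div_rpow ha hc0.le, Real.rpow_add hc0, Real.rpow_one,
      Real.rpow_neg hc0.le]
    have h3 : 0 < c ^ ((d:ℝ) / 2) := by positivity
    field_simp
  rw [e1, mul_add, ← mul_assoc, e2, e3] at h2
  exact h2

/-- the energy in the potential `V` of functions which satisfy the kinetic inequality -/
theorem dual {d N : ℕ} (hd : 1 ≤ d) (u : Fin N → (Fin d → ℝ) → ℂ)
    (hu : ∀ i, Continuous (u i)) (hc : ∀ i, HasCompactSupport (u i)) {σ T : ℝ} (hσ : 0 < σ)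
    (hT : σ * Kcl d * ∫ x, (∑ i, ‖u i x‖ ^ 2) ^ (1 + 2 / (d:ℝ)) ≤ T)
    (V : (Fin d → ℝ) → ℝ) (hV : MemLp V (ENNReal.ofReal (1 + (d:ℝ) / 2))) :
    -(T + ∑ i, ∫ x, V x * ‖u i x‖ ^ 2) ≤
      σ ^ (-((d:ℝ) / 2)) * Pool.H632.LTD.Lcl 1 d * ∫ x, (max (-V x) 0) ^ (1 + (d:ℝ) / 2) := by
  have hd0 : (0:ℝ) < d := by exact_mod_cast hd
  have hneg : Integrable (fun x => (max (-V x) 0) ^ (1 + (d:ℝ) / 2)) :=
    (Pool.H632.LTD.adm_one hd hV).neg
  have h1p : (1:ℝ≥0∞) ≤ ENNReal.ofReal (1 + (d:ℝ) / 2) := by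
    rw [← ENNReal.ofReal_one]
    exact ENNReal.ofReal_le_ofReal (by linarith [show (0:ℝ) ≤ (d:ℝ) / 2 by positivity])
  have hloc : LocallyIntegrable V volume := hV.locallyIntegrable h1p
  have hcs : ∀ i, HasCompactSupport (fun x => ‖u i x‖ ^ 2) := by
    intro i
    refine (hc i).comp_left (g := fun z : ℂ => ‖z‖ ^ 2) ?_
    simp
  have hVn : ∀ i, Integrable (fun x => V x * ‖u i x‖ ^ 2) := by
    intro i
    have := hloc.integrable_smul_left_of_hasCompactSupport (((hu i).norm.pow 2)) (hcs i)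
    refine this.congr (Eventually.of_forall fun x => ?_)
    simp [mul_comm]
  obtain ⟨ρ, hρ⟩ : ∃ ρ : (Fin d → ℝ) → ℝ, ρ = fun x => ∑ i, ‖u i x‖ ^ 2 := ⟨_, rfl⟩
  have hρ0 : ∀ x, 0 ≤ ρ x := fun x => by rw [hρ]; exact Finset.sum_nonneg fun n _ => sq_nonneg _
  have hρc : Continuous ρ := by
    rw [hρ]
    exact continuous_finsetSum _ fun i _ => (hu i).norm.pow 2
  have hρs : HasCompactSupport ρ := by
    classical
    have hK : IsCompact (⋃ i, tsupport (u i)) := isCompact_iUnion fun i => hc i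
    refine HasCompactSupport.intro hK fun x hx => ?_
    rw [hρ]
    refine Finset.sum_eq_zero fun i _ => ?_
    have : x ∉ tsupport (u i) := fun h => hx (mem_iUnion.2 ⟨i, h⟩)
    rw [image_eq_zero_of_notMem_tsupport this]
    simp
  have hp0 : (0:ℝ) < 1 + 2 / (d:ℝ) := by positivity
  have hρ3 : Integrable (fun x => ρ x ^ (1 + 2 / (d:ℝ))) := by
    refine (hρc.rpow_const fun x => Or.inr hp0.le).integrable_of_hasCompactSupport ?_
    refine hρs.comp_left (g := fun z : ℝ => z ^ (1 + 2 / (d:ℝ))) ?_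
    exact Real.zero_rpow hp0.ne'
  have hVρ : Integrable (fun x => V x * ρ x) := by
    have := integrable_finsetSum Finset.univ fun i _ => hVn i
    refine this.congr (Eventually.of_forall fun x => ?_)
    simp only [hρ, Finset.mul_sum]
  have hsum : ∑ i, ∫ x, V x * ‖u i x‖ ^ 2 = ∫ x, V x * ρ x := by
    rw [← integral_finsetSum _ fun n _ => hVn n]
    congr 1
    funext x
    rw [hρ, Finset.mul_sum]
  have hpt : ∀ x, -(V x * ρ x) ≤ σ * Kcl d * ρ x ^ (1 + 2 / (d:ℝ)) +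
      σ ^ (-((d:ℝ) / 2)) * Pool.H632.LTD.Lcl 1 d * (max (-V x) 0) ^ (1 + (d:ℝ) / 2) := by
    intro x
    have h1 := young_cl hd hσ (a := max (-V x) 0) (ρ := ρ x) (le_max_right _ _) (hρ0 x)
    have h2 : -(V x * ρ x) ≤ max (-V x) 0 * ρ x := by
      rw [← neg_mul]
      exact mul_le_mul_of_nonneg_right (le_max_left _ _) (hρ0 x)
    exact h2.trans h1
  have hT' : σ * Kcl d * ∫ x, ρ x ^ (1 + 2 / (d:ℝ)) ≤ T := by
    rw [hρ]
    exact hT
  have e1 : ∫ x, (σ * Kcl d * ρ x ^ (1 + 2 / (d:ℝ)) +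
      σ ^ (-((d:ℝ) / 2)) * Pool.H632.LTD.Lcl 1 d * (max (-V x) 0) ^ (1 + (d:ℝ) / 2)) =
      σ * Kcl d * (∫ x, ρ x ^ (1 + 2 / (d:ℝ))) +
      σ ^ (-((d:ℝ) / 2)) * Pool.H632.LTD.Lcl 1 d * ∫ x, (max (-V x) 0) ^ (1 + (d:ℝ) / 2) := by
    rw [← integral_const_mul, ← integral_const_mul]
    exact integral_add (hρ3.const_mul _) (hneg.const_mul _)
  have hint : ∫ x, -(V x * ρ x) ≤
      ∫ x, (σ * Kcl d * ρ x ^ (1 + 2 / (d:ℝ)) +
      σ ^ (-((d:ℝ) / 2)) * Pool.H632.LTD.Lcl 1 d * (max (-V x) 0) ^ (1 + (d:ℝ) / 2)) :=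
    integral_mono hVρ.neg ((hρ3.const_mul _).add (hneg.const_mul _)) hpt
  rw [integral_neg, e1] at hint
  rw [hsum]
  linarith

end Pool.Agent.N674.LT
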