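import Mathlib
import Pool.Agent.N674.LT.Base
import Pool.Agent.N674.LT.Local

set_option autoImplicit false

/-!
# Complex functions with few real transversal modes
-/

open MeasureTheory Set Filter Topology Real
open LTd (pd pd_basic Kcl)

namespace Pool.Agent.N674.LT

/-- the point with the longitudinal coordinates `t` and the transversal coordinates `y` -/
def join {m k : ℕ} (t : Fin k → ℝ) (y : Fin m → ℝ) : Fin (m + k) → ℝ := fun j =>
  if h : (j : ℕ) < k then t ⟨j, h⟩ else y ⟨j - k, by have := j.isLt; omega⟩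

theorem join_zero {m : ℕ} (t : Fin 0 → ℝ) (y : Fin m → ℝ) : join t y = y := by
  funext j
  simp [join]

theorem join_cons {m k : ℕ} (t : Fin (k + 1) → ℝ) (y : Fin m → ℝ) :
    join t y = (Fin.cons (t 0) (join (Fin.tail t) y) : Fin (m + k + 1) → ℝ) := by
  funext j
  refine Fin.cases ?_ (fun j => ?_) j
  · simp [join]
  · show join t y (Fin.succ j) = (Fin.cons (t 0) (join (Fin.tail t) y) : Fin (m + k + 1) → ℝ) j.succ
    rw [Fin.cons_succ]
    unfold join
    by_cases h : (j : ℕ) < k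
    · rw [dif_pos h, dif_pos (show ((Fin.succ j : Fin (m + k + 1)) : ℕ) < k + 1 by
        rw [Fin.val_succ]; omega)]
      rfl
    · rw [dif_neg h, dif_neg (show ¬ ((Fin.succ j : Fin (m + k + 1)) : ℕ) < k + 1 by
        rw [Fin.val_succ]; omega)]
      congr 1
      apply Fin.ext
      show ((Fin.succ j : Fin (m + k + 1)) : ℕ) - (k + 1) = (j : ℕ) - k
      rw [Fin.val_succ]; omega

theorem Modes.of_join {n m : ℕ} : ∀ (k : ℕ) {N : ℕ} (w : Fin N → (Fin (m + k) → ℝ) → ℝ),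
    (∀ t : Fin k → ℝ, ∃ φ : Fin n → (Fin m → ℝ) → ℝ, ∀ i, ∃ c : Fin n → ℝ, ∀ y,
      w i (join t y) = ∑ a, c a * φ a y) → Modes n m k w
  | 0, N, w, h => by
    obtain ⟨φ, hφ⟩ := h (fun i => Fin.elim0 i)
    refine ⟨φ, fun i => ?_⟩
    obtain ⟨c, hc⟩ := hφ i
    refine ⟨c, fun y => ?_⟩
    have := hc y
    rwa [join_zero] at this
  | k + 1, N, w, h => by
    intro s
    refine Modes.of_join k _ fun t => ?_
    obtain ⟨φ, hφ⟩ := h (Fin.cons s t)
    refine ⟨φ, fun i => ?_⟩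
    obtain ⟨c, hc⟩ := hφ i
    refine ⟨c, fun y => ?_⟩
    have h1 := hc y
    rw [join_cons, Fin.cons_zero, Fin.tail_cons] at h1
    exact h1

/-- **The inequality for arbitrarily many complex functions with few transversal modes.** -/
theorem modes_complex {n m k N : ℕ} (hk : 1 ≤ k) {σ : ℝ} (hσ : 0 ≤ σ)
    (hs : 4 * (σ ^ (m + k) * (Nd k ^ 2 * (n:ℝ) ^ 2)) ≤ 3 * Nd (m + k) ^ 2)
    (u : Fin N → (Fin (m + k) → ℝ) → ℂ) (hu : ∀ i, ContDiff ℝ 1 (u i))
    (hc : ∀ i, HasCompactSupport (u i))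
    (ho : ∀ i j, ∫ x, (starRingEnd ℂ) (u i x) * u j x = if i = j then 1 else 0)
    (hmod : ∀ t : Fin k → ℝ, ∃ φ : Fin n → (Fin m → ℝ) → ℝ, ∀ i, ∃ c : Fin n → ℂ, ∀ y,
      u i (join t y) = ∑ a, c a * (φ a y : ℂ)) :
    σ * Kcl (m + k) * ∫ x, (∑ i, ‖u i x‖ ^ 2) ^ (1 + 2 / ((m + k : ℕ) : ℝ)) ≤
      ∑ i, ∑ q, ∫ x, ‖fderiv ℝ (u i) x (Pi.single q 1)‖ ^ 2 := by
  obtain ⟨K, rfl⟩ : ∃ K, k = K + 1 := ⟨k - 1, by omega⟩
  have hsq : ∀ z : ℂ, ‖z‖ ^ 2 = z.re ^ 2 + z.im ^ 2 := by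
    intro z
    rw [Complex.sq_norm, Complex.normSq_apply]; ring
  let F : Fin (N + N) → (Fin (m + (K + 1)) → ℝ) → ℝ :=
    Fin.append (fun i x => (u i x).re) (fun i x => (u i x).im)
  have hFl : ∀ i, F (Fin.castAdd N i) = fun x => (u i x).re := fun i => Fin.append_left _ _ i
  have hFr : ∀ i, F (Fin.natAdd N i) = fun x => (u i x).im := fun i => Fin.append_right _ _ i
  have hFd : ∀ i, ContDiff ℝ 1 (F i) := by
    intro i
    refine Fin.addCases (fun i => ?_) (fun i => ?_) i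
    · rw [hFl]; exact Complex.reCLM.contDiff.comp (hu i)
    · rw [hFr]; exact Complex.imCLM.contDiff.comp (hu i)
  have hFc : ∀ i, HasCompactSupport (F i) := by
    intro i
    refine Fin.addCases (fun i => ?_) (fun i => ?_) i
    · rw [hFl]; exact (hc i).comp_left (g := Complex.re) Complex.zero_re
    · rw [hFr]; exact (hc i).comp_left (g := Complex.im) Complex.zero_im
  have hL : ∀ i, MemLp (u i) 2 volume := fun i =>
    (hu i).continuous.memLp_of_hasCompactSupport (hc i)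
  have hG : ∀ v : Fin (N + N) → ℝ, ∫ x, (∑ i, v i * F i x) ^ 2 ≤ ∑ i, v i ^ 2 := by
    intro v
    have h1 := LTd.gram_complex u hL ho (fun i => v (Fin.castAdd N i))
      (fun i => v (Fin.natAdd N i))
    have h2 : ∀ x, ∑ i, v i * F i x = ∑ i : Fin N, (v (Fin.castAdd N i) * (u i x).re +
        v (Fin.natAdd N i) * (u i x).im) := by
      intro x
      rw [Fin.sum_univ_add, Finset.sum_add_distrib]
      simp only [hFl, hFr]
    have h3 : ∑ i, v i ^ 2 = ∑ i : Fin N, (v (Fin.castAdd N i) ^ 2 + v (Fin.natAdd N i) ^ 2) := by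
      rw [Fin.sum_univ_add, Finset.sum_add_distrib]
    simp only [h2]
    rw [h3]
    exact h1
  have hmodR : Modes n m (K + 1) F := by
    refine Modes.of_join (K + 1) F fun t => ?_
    obtain ⟨φ, hφ⟩ := hmod t
    refine ⟨φ, fun i => ?_⟩
    refine Fin.addCases (fun i => ?_) (fun i => ?_) i
    · obtain ⟨c, hc⟩ := hφ i
      refine ⟨fun a => (c a).re, fun y => ?_⟩
      rw [hFl]
      show (u i (join t y)).re = _
      rw [hc y, Complex.re_sum]
      exact Finset.sum_congr rfl fun a _ => by simp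
    · obtain ⟨c, hc⟩ := hφ i
      refine ⟨fun a => (c a).im, fun y => ?_⟩
      rw [hFr]
      show (u i (join t y)).im = _
      rw [hc y, Complex.im_sum]
      exact Finset.sum_congr rfl fun a _ => by simp
  have hH := modes_general (n := n) (m := m) (K := K) hσ (by
    rw [← Nd_sq, ← Nd_sq]
    exact hs) F hFd hFc hG hmodR
  have hFs : ∀ x, ∑ i, F i x ^ 2 = ∑ i, ‖u i x‖ ^ 2 := by
    intro x
    rw [Fin.sum_univ_add, ← Finset.sum_add_distrib]
    simp only [hFl, hFr, hsq]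
  have hpdl : ∀ i q x, pd q (fun x => (u i x).re) x = (fderiv ℝ (u i) x (Pi.single q 1)).re := by
    intro i q x
    unfold pd
    have h1 : HasFDerivAt (fun x => (u i x).re) (Complex.reCLM.comp (fderiv ℝ (u i) x)) x :=
      Complex.reCLM.hasFDerivAt.comp x (((hu i).differentiable (by norm_num)) x).hasFDerivAt
    rw [h1.fderiv]
    rfl
  have hpdr : ∀ i q x, pd q (fun x => (u i x).im) x = (fderiv ℝ (u i) x (Pi.single q 1)).im := by
    intro i q x
    unfold pd
    have h1 : HasFDerivAt (fun x => (u i x).im) (Complex.imCLM.comp (fderiv ℝ (u i) x)) x :=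
      Complex.imCLM.hasFDerivAt.comp x (((hu i).differentiable (by norm_num)) x).hasFDerivAt
    rw [h1.fderiv]
    rfl
  have hGs : ∀ x, ∑ q, ∑ i, pd q (F i) x ^ 2 =
      ∑ i, ∑ q, ‖fderiv ℝ (u i) x (Pi.single q 1)‖ ^ 2 := by
    intro x
    rw [Finset.sum_comm, Fin.sum_univ_add, ← Finset.sum_add_distrib]
    refine Finset.sum_congr rfl fun i _ => ?_
    rw [← Finset.sum_add_distrib]
    simp only [hFl, hFr, hpdl, hpdr, hsq]
  have hI : ∀ i q, Integrable (fun x => ‖fderiv ℝ (u i) x (Pi.single q 1)‖ ^ 2) := by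
    intro i q
    have h1 : Continuous fun x => fderiv ℝ (u i) x (Pi.single q 1) :=
      ((hu i).continuous_fderiv (by norm_num)).clm_apply continuous_const
    have h2 : HasCompactSupport fun x => fderiv ℝ (u i) x (Pi.single q 1) :=
      ((hc i).fderiv (𝕜 := ℝ)).comp_left
        (g := fun L : (Fin (m + (K + 1)) → ℝ) →L[ℝ] ℂ => L (Pi.single q 1)) (by simp)
    have h3 : HasCompactSupport fun x => ‖fderiv ℝ (u i) x (Pi.single q 1)‖ ^ 2 :=
      h2.comp_left (g := fun z : ℂ => ‖z‖ ^ 2) (by simp)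
    exact (h1.norm.pow 2).integrable_of_hasCompactSupport h3
  have hint : ∫ x, ∑ i, ∑ q, ‖fderiv ℝ (u i) x (Pi.single q 1)‖ ^ 2 =
      ∑ i, ∑ q, ∫ x, ‖fderiv ℝ (u i) x (Pi.single q 1)‖ ^ 2 := by
    rw [integral_finsetSum _ (fun i _ => integrable_finsetSum _ (fun q _ => hI i q))]
    refine Finset.sum_congr rfl fun i _ => ?_
    rw [integral_finsetSum _ (fun q _ => hI i q)]
  rw [← hint]
  have h7 := hH
  simp only [hFs] at h7
  refine le_trans h7 (le_of_eq ?_)
  exact integral_congr_ae (Eventually.of_forall hGs)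

theorem Nd_one : Nd 1 ^ 2 = 3 / 4 := by
  rw [Nd_sq, ad]; norm_num

theorem Nd_two : Nd 2 ^ 2 = 3 / 4 := by
  rw [Nd_sq, ad]; norm_num [Nat.factorial]

end Pool.Agent.N674.LT
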